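import Mathlib

/-!
# Zero-sum subfamilies in finite abelian groups of small exponent

A family of elements `g i`, `i ∈ s`, of a finite abelian group `α` of exponent dividing `m` with
`|α| (1 - 1/m) ^ |s| < 1` has a nonempty subfamily with sum zero (van Emde Boas, Kruyswijk, Meshulam).
-/

set_option autoImplicit false

open Finset

namespace Pool.Agent.TH909

/-- the character `ψ` differs from `a` along `g` on `s` -/
def Far {α ι : Type*} [AddCommGroup α] (g : ι → α) (a : ι → ℂ) (s : Finset ι) (ψ : AddChar α ℂ) : Prop :=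
  ∀ i ∈ s, a i ≠ ψ (g i)

open Classical in
theorem greedy {α : Type*} [AddCommGroup α] [Fintype α] (m : ℕ) (hm : 0 < m)
    (hexp : ∀ a : α, m • a = 0) {ι : Type*} (g : ι → α) (s : Finset ι) :
    ∃ a : ι → ℂ, (∀ i, a i ≠ 0) ∧
      (((univ : Finset (AddChar α ℂ)).filter (Far g a s)).card : ℝ) ≤
        (Fintype.card α : ℝ) * (1 - 1 / (m : ℝ)) ^ s.card := by
  have hm0 : (0 : ℝ) < m := by exact_mod_cast hm
  have hm1 : (1 : ℝ) ≤ m := by exact_mod_cast hm
  induction s using Finset.induction_on with
  | empty =>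
    refine ⟨fun _ => 1, fun _ => one_ne_zero, ?_⟩
    rw [card_empty, pow_zero, mul_one, ← AddChar.card_eq (α := α)]
    exact_mod_cast Finset.card_le_card (Finset.filter_subset _ _)
  | insert i s hi ih =>
    obtain ⟨a, ha, hb⟩ := ih
    set X := (univ : Finset (AddChar α ℂ)).filter (Far g a s) with hX
    have hR : (Polynomial.nthRootsFinset m (1 : ℂ)).card ≤ m := by
      refine (Multiset.toFinset_card_le _).trans ?_
      exact Polynomial.card_nthRoots m 1
    have hRne : (Polynomial.nthRootsFinset m (1 : ℂ)).Nonempty :=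
      ⟨1, by rw [Polynomial.mem_nthRootsFinset hm]; simp⟩
    have hmap : ∀ ψ ∈ X, ψ (g i) ∈ Polynomial.nthRootsFinset m (1 : ℂ) := by
      intro ψ _
      rw [Polynomial.mem_nthRootsFinset hm, ← AddChar.map_nsmul_eq_pow, hexp]
      simp
    obtain ⟨w, hw, hwX⟩ := Finset.exists_le_card_fiber_of_nsmul_le_card_of_maps_to
      (b := (X.card : ℝ) / m) hmap hRne (by
        rw [nsmul_eq_mul]
        have h1 : ((Polynomial.nthRootsFinset m (1 : ℂ)).card : ℝ) ≤ m := by exact_mod_cast hR
        calc ((Polynomial.nthRootsFinset m (1 : ℂ)).card : ℝ) * ((X.card : ℝ) / m)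
            ≤ m * ((X.card : ℝ) / m) := mul_le_mul_of_nonneg_right h1 (by positivity)
          _ = X.card := by field_simp)
    refine ⟨Function.update a i w, ?_, ?_⟩
    · intro j
      by_cases hj : j = i
      · subst hj
        rw [Function.update_self]
        rw [Polynomial.mem_nthRootsFinset hm] at hw
        rintro rfl
        rw [zero_pow hm.ne'] at hw
        exact zero_ne_one hw
      · rw [Function.update_of_ne hj]
        exact ha j
    · have hsub : (univ : Finset (AddChar α ℂ)).filter
          (Far g (Function.update a i w) (insert i s)) ⊆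
          X \ X.filter (fun ψ => ψ (g i) = w) := by
        intro ψ hψ
        rw [mem_filter] at hψ
        rw [mem_sdiff, mem_filter, hX, mem_filter]
        refine ⟨⟨mem_univ _, fun j hj => ?_⟩, ?_⟩
        · have h := hψ.2 j (mem_insert_of_mem hj)
          have hji : j ≠ i := fun h' => hi (h' ▸ hj)
          rwa [Function.update_of_ne hji] at h
        · rintro ⟨_, h⟩
          have h2 := hψ.2 i (mem_insert_self _ _)
          rw [Function.update_self] at h2
          exact h2 h.symm
      have hc := Finset.card_le_card hsub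
      rw [Finset.card_sdiff_of_subset (Finset.filter_subset _ _)] at hc
      have hle : (X.filter (fun ψ => ψ (g i) = w)).card ≤ X.card :=
        Finset.card_le_card (Finset.filter_subset _ _)
      have hc' : (((univ : Finset (AddChar α ℂ)).filter
          (Far g (Function.update a i w) (insert i s))).card : ℝ) ≤
          (X.card : ℝ) - (X.filter (fun ψ => ψ (g i) = w)).card := by
        rw [← Nat.cast_sub hle]
        exact_mod_cast hc
      refine hc'.trans ?_
      rw [card_insert_of_notMem hi, pow_succ, ← mul_assoc]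
      have h1 : (0 : ℝ) ≤ 1 - 1 / (m : ℝ) := by
        rw [sub_nonneg, div_le_one hm0]
        exact hm1
      calc (X.card : ℝ) - (X.filter (fun ψ => ψ (g i) = w)).card
          ≤ (X.card : ℝ) - (X.card : ℝ) / m := sub_le_sub_left hwX _
        _ = (X.card : ℝ) * (1 - 1 / (m : ℝ)) := by ring
        _ ≤ _ := mul_le_mul_of_nonneg_right hb h1

theorem addChar_sum {α ι : Type*} [AddCommGroup α] (ψ : AddChar α ℂ) (g : ι → α) (t : Finset ι) :
    ψ (∑ i ∈ t, g i) = ∏ i ∈ t, ψ (g i) := by
  classical
  induction t using Finset.induction_on with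
  | empty => simp
  | insert i t hi ih =>
    rw [Finset.sum_insert hi, Finset.prod_insert hi, AddChar.map_add_eq_mul, ih]

/-- **Zero-sum subfamilies.** -/
theorem zero_sum {α : Type*} [AddCommGroup α] [Fintype α] (m : ℕ) (hm : 0 < m)
    (hexp : ∀ a : α, m • a = 0) {ι : Type*} (g : ι → α) (s : Finset ι)
    (hs : (Fintype.card α : ℝ) * (1 - 1 / (m : ℝ)) ^ s.card < 1) :
    ∃ t ⊆ s, t.Nonempty ∧ ∑ i ∈ t, g i = 0 := by
  classical
  obtain ⟨a, ha, hb⟩ := greedy m hm hexp g s
  by_contra hcon
  push Not at hcon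
  have hX : ((univ : Finset (AddChar α ℂ)).filter (Far g a s)).card = 0 := by
    have h := lt_of_le_of_lt hb hs
    have h2 : ((univ : Finset (AddChar α ℂ)).filter (Far g a s)).card < 1 := by
      exact_mod_cast h
    omega
  rw [Finset.card_eq_zero, Finset.filter_eq_empty_iff] at hX
  have h0 : ∀ ψ : AddChar α ℂ, ∏ i ∈ s, (a i - ψ (g i)) = 0 := by
    intro ψ
    have h := hX (mem_univ ψ)
    unfold Far at h
    push Not at h
    obtain ⟨i, hi, h⟩ := h
    exact Finset.prod_eq_zero hi (sub_eq_zero.2 h)
  have h1 : ∑ ψ : AddChar α ℂ, ∏ i ∈ s, (a i - ψ (g i)) = 0 :=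
    Finset.sum_eq_zero fun ψ _ => h0 ψ
  have h2 : ∑ ψ : AddChar α ℂ, ∏ i ∈ s, (a i - ψ (g i)) =
      ∑ t ∈ s.powerset, (-1) ^ t.card * (∏ i ∈ s \ t, a i) *
        (if ∑ i ∈ t, g i = 0 then (Fintype.card α : ℂ) else 0) := by
    simp_rw [Finset.prod_sub]
    rw [Finset.sum_comm]
    apply Finset.sum_congr rfl
    intro t _
    rw [← Finset.mul_sum]
    congr 1
    rw [← AddChar.sum_apply_eq_ite]
    apply Finset.sum_congr rfl
    intro ψ _
    rw [addChar_sum]
  have h3 : ∑ t ∈ s.powerset, (-1) ^ t.card * (∏ i ∈ s \ t, a i) *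
        (if ∑ i ∈ t, g i = 0 then (Fintype.card α : ℂ) else 0) =
      (∏ i ∈ s, a i) * (Fintype.card α : ℂ) := by
    rw [Finset.sum_eq_single ∅]
    · simp
    · intro t ht hne
      rw [if_neg (hcon t (Finset.mem_powerset.1 ht) (Finset.nonempty_iff_ne_empty.2 hne)), mul_zero]
    · intro h
      exact absurd (Finset.empty_mem_powerset s) h
  rw [h2, h3] at h1
  rcases mul_eq_zero.1 h1 with h | h
  · exact (Finset.prod_ne_zero_iff.2 fun i _ => ha i) h
  · have : Fintype.card α ≠ 0 := Fintype.card_ne_zero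
    exact this (by exact_mod_cast h)

end Pool.Agent.TH909
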