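import Mathlib
import Pool.Agent.TH909.Davenport

/-!
# Korselt numbers with large prime factors
-/

set_option autoImplicit false

open Finset

namespace Pool.Agent.TH909

theorem one_sub_sum_le_prod {ι : Type*} (s : Finset ι) (x : ι → ℝ) (h0 : ∀ i ∈ s, 0 ≤ x i)
    (h1 : ∀ i ∈ s, x i ≤ 1) : 1 - ∑ i ∈ s, x i ≤ ∏ i ∈ s, (1 - x i) := by
  classical
  induction s using Finset.induction_on with
  | empty => simp
  | insert i s hi ih =>
    rw [sum_insert hi, prod_insert hi]
    have h2 := ih (fun j hj => h0 j (mem_insert_of_mem hj)) (fun j hj => h1 j (mem_insert_of_mem hj))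
    have h3 : ∏ j ∈ s, (1 - x j) ≤ 1 := by
      apply Finset.prod_le_one
      · intro j hj
        linarith [h1 j (mem_insert_of_mem hj)]
      · intro j hj
        linarith [h0 j (mem_insert_of_mem hj)]
    have h4 := h0 i (mem_insert_self _ _)
    have h5 := h1 i (mem_insert_self _ _)
    nlinarith

/-- the Fermat liars of a Korselt number -/
theorem korselt_count (P : Finset ℕ) (n : ℕ) (hn : n = ∏ p ∈ P, p) (hn1 : 1 < n)
    (hP : ∀ p ∈ P, p.Prime ∧ p - 1 ∣ n - 1) :
    (1 - ∑ p ∈ P, 1 / (p : ℝ)) * (n : ℝ) ≤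
      (((Finset.range n).filter (fun a => a ^ (n - 1) ≡ 1 [MOD n])).card : ℝ) := by
  have h1 : n.totient ≤ ((Finset.range n).filter (fun a => a ^ (n - 1) ≡ 1 [MOD n])).card := by
    rw [Nat.totient]
    apply Finset.card_le_card
    intro a ha
    rw [mem_filter] at ha ⊢
    refine ⟨ha.1, ?_⟩
    have hcop : n.Coprime a := ha.2
    have ha0 : 0 < a := by
      rcases Nat.eq_zero_or_pos a with h | h
      · rw [h, Nat.coprime_zero_right] at hcop
        omega
      · exact h
    have hpos : 1 ≤ a ^ (n - 1) := Nat.one_le_pow _ _ ha0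
    apply Nat.ModEq.symm
    rw [Nat.modEq_iff_dvd' hpos, hn]
    apply Finset.prod_primes_dvd
    · intro p hp
      exact (hP p hp).1.prime
    · intro p hp
      obtain ⟨hpp, hpd⟩ := hP p hp
      rw [← hn, ← Nat.modEq_iff_dvd' hpos]
      apply Nat.ModEq.symm
      obtain ⟨e, he⟩ := hpd
      rw [he, pow_mul]
      have hpn : p ∣ n := by rw [hn]; exact Finset.dvd_prod_of_mem _ hp
      have hcp : a.Coprime p := (Nat.Coprime.coprime_dvd_left hpn hcop).symm
      have h2 := Nat.ModEq.pow_totient hcp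
      rw [Nat.totient_prime hpp] at h2
      have h3 := h2.pow e
      rwa [one_pow] at h3
  have h2 : (n.totient : ℝ) = n * ∏ p ∈ P, (1 - 1 / (p : ℝ)) := by
    have h3 := Nat.totient_eq_mul_prod_factors n
    have h4 : n.primeFactors = P := by
      rw [hn]
      exact Nat.primeFactors_prod fun p hp => (hP p hp).1
    rw [h4] at h3
    have h5 : ((n.totient : ℚ) : ℝ) = ((n * ∏ p ∈ P, (1 - (p : ℚ)⁻¹) : ℚ) : ℝ) := by
      rw [h3]
    push_cast at h5
    rw [h5]
    simp only [one_div]
  have h3 := one_sub_sum_le_prod P (fun p => 1 / (p : ℝ)) (fun p _ => by positivity)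
    (fun p hp => by
      have h4 : (1 : ℝ) ≤ p := by exact_mod_cast (hP p hp).1.one_le
      rw [div_le_one (by linarith)]
      exact h4)
  calc (1 - ∑ p ∈ P, 1 / (p : ℝ)) * (n : ℝ) ≤ (∏ p ∈ P, (1 - 1 / (p : ℝ))) * n :=
        mul_le_mul_of_nonneg_right h3 (by positivity)
    _ = (n.totient : ℝ) := by rw [h2]; ring
    _ ≤ _ := by exact_mod_cast h1

theorem prod_inj {A B : Finset ℕ} (hA : ∀ p ∈ A, p.Prime) (hB : ∀ p ∈ B, p.Prime)
    (h : ∏ p ∈ A, p = ∏ p ∈ B, p) : A = B := by
  rw [← Nat.primeFactors_prod hA, ← Nat.primeFactors_prod hB, h]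

/-- **Zero-sum step.** -/
theorem modEq_one_subset (Q : Finset ℕ) (m : ℕ) (hm : 0 < m) (hQ : ∀ q ∈ Q, q.Prime ∧ q - 1 ∣ m)
    {ι : Type*} (s : Finset ι) (x : ι → ℕ) (hx : ∀ i ∈ s, ∀ q ∈ Q, ¬ q ∣ x i)
    (hs : (m : ℝ) * Real.log ((∏ q ∈ Q, q : ℕ) : ℝ) < s.card) :
    ∃ t ⊆ s, t.Nonempty ∧ ∏ i ∈ t, x i ≡ 1 [MOD ∏ q ∈ Q, q] := by
  classical
  set L : ℕ := ∏ q ∈ Q, q with hL
  have hL0 : 0 < L := by
    rw [hL]
    exact Finset.prod_pos fun q hq => (hQ q hq).1.pos
  have : NeZero L := ⟨hL0.ne'⟩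
  have hcop : ∀ i ∈ s, (x i).Coprime L := by
    intro i hi
    rw [hL]
    apply Nat.Coprime.prod_right
    intro q hq
    exact ((Nat.Prime.coprime_iff_not_dvd (hQ q hq).1).2 (hx i hi q hq)).symm
  -- the family in the unit group
  let g : ι → Additive (ZMod L)ˣ := fun i =>
    if h : (x i).Coprime L then Additive.ofMul (ZMod.unitOfCoprime (x i) h) else 0
  have hexp : ∀ a : Additive (ZMod L)ˣ, m • a = 0 := by
    intro a
    have h1 : (a.toMul) ^ m = 1 := by
      apply Units.ext
      rw [Units.val_pow_eq_pow_val, Units.val_one]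
      set v : ℕ := (a.toMul : ZMod L).val with hv
      have hvc : v.Coprime L := ZMod.val_coe_unit_coprime a.toMul
      have hva : (a.toMul : ZMod L) = (v : ZMod L) := by
        rw [hv, ZMod.natCast_zmod_val]
      rw [hva]
      have h2 : v ^ m ≡ 1 [MOD L] := by
        by_cases hL1 : L = 1
        · rw [hL1]
          exact Nat.modEq_one
        have hv0 : 0 < v := by
          rcases Nat.eq_zero_or_pos v with h | h
          · rw [h, Nat.coprime_zero_left] at hvc
            exact absurd hvc hL1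
          · exact h
        have hpos : 1 ≤ v ^ m := Nat.one_le_pow _ _ hv0
        apply Nat.ModEq.symm
        rw [Nat.modEq_iff_dvd' hpos, hL]
        apply Finset.prod_primes_dvd
        · intro q hq
          exact (hQ q hq).1.prime
        · intro q hq
          obtain ⟨hqp, e, he⟩ := hQ q hq
          rw [← Nat.modEq_iff_dvd' hpos]
          apply Nat.ModEq.symm
          rw [he, pow_mul]
          have hqL : q ∣ L := by rw [hL]; exact Finset.dvd_prod_of_mem _ hq
          have h3 := Nat.ModEq.pow_totient (Nat.Coprime.coprime_dvd_right hqL hvc)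
          rw [Nat.totient_prime hqp] at h3
          have h4 := h3.pow e
          rwa [one_pow] at h4
      have h3 := (ZMod.natCast_eq_natCast_iff _ _ _).2 h2
      push_cast at h3
      exact h3
    have h2 : m • a = Additive.ofMul (a.toMul ^ m) := rfl
    rw [h2, h1]
    rfl
  have hcard : (Fintype.card (Additive (ZMod L)ˣ) : ℝ) ≤ L := by
    have h1 : Fintype.card (Additive (ZMod L)ˣ) = L.totient := by
      rw [Fintype.card_additive, ZMod.card_units_eq_totient]
    rw [h1]
    exact_mod_cast Nat.totient_le L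
  have hm0 : (0 : ℝ) < m := by exact_mod_cast hm
  have hlt : (Fintype.card (Additive (ZMod L)ˣ) : ℝ) * (1 - 1 / (m : ℝ)) ^ s.card < 1 := by
    have hm1 : (1 : ℝ) ≤ m := by exact_mod_cast hm
    have h0 : (0 : ℝ) ≤ 1 - 1 / (m : ℝ) := by
      rw [sub_nonneg, div_le_one hm0]
      exact hm1
    have h1 : 1 - 1 / (m : ℝ) ≤ Real.exp (-(1 / (m : ℝ))) := by
      have := Real.add_one_le_exp (-(1 / (m : ℝ)))
      linarith
    have h2 : (1 - 1 / (m : ℝ)) ^ s.card ≤ Real.exp (-(1 / (m : ℝ))) ^ s.card :=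
      pow_le_pow_left₀ h0 h1 _
    rw [← Real.exp_nat_mul] at h2
    have hLR : (0 : ℝ) < L := by exact_mod_cast hL0
    calc (Fintype.card (Additive (ZMod L)ˣ) : ℝ) * (1 - 1 / (m : ℝ)) ^ s.card
        ≤ (L : ℝ) * Real.exp (s.card * -(1 / (m : ℝ))) :=
          mul_le_mul hcard h2 (pow_nonneg h0 _) hLR.le
      _ = Real.exp (Real.log L + s.card * -(1 / (m : ℝ))) := by
          rw [Real.exp_add, Real.exp_log hLR]
      _ < 1 := by
          rw [Real.exp_lt_one_iff]
          have h3 : Real.log L < s.card / m := by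
            rw [lt_div_iff₀ hm0]
            linarith
          have h4 : (s.card : ℝ) * -(1 / (m : ℝ)) = -(s.card / m) := by ring
          rw [h4]
          linarith
  obtain ⟨t, hts, htn, ht0⟩ := zero_sum m hm hexp g s hlt
  refine ⟨t, hts, htn, ?_⟩
  have h1 : ∑ i ∈ t, g i = Additive.ofMul (∏ i ∈ t, (g i).toMul) := by
    rw [ofMul_prod]
    rfl
  rw [h1] at ht0
  have h2 : ∏ i ∈ t, (g i).toMul = 1 := ht0
  have h3 := congrArg (fun y : (ZMod L)ˣ => (y : ZMod L)) h2
  simp only [Units.coe_prod, Units.val_one] at h3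
  have h4 : ∏ i ∈ t, (((g i).toMul : (ZMod L)ˣ) : ZMod L) = ∏ i ∈ t, ((x i : ℕ) : ZMod L) := by
    apply Finset.prod_congr rfl
    intro i hi
    have hc := hcop i (hts hi)
    have : g i = Additive.ofMul (ZMod.unitOfCoprime (x i) hc) := dif_pos hc
    rw [this, toMul_ofMul, ZMod.coe_unitOfCoprime]
  rw [h4] at h3
  apply (ZMod.natCast_eq_natCast_iff _ _ _).1
  push_cast
  exact h3

end Pool.Agent.TH909
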