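import Pool.Agent.TH909.PrimesX

/-!
# A cofactor `k` with many primes `d k + 1`
-/

set_option autoImplicit false

open Finset Filter

namespace Pool.Agent.TH909

theorem harmonic_bound (N : ℕ) : ∑ k ∈ Icc 1 N, (1 : ℝ) / k ≤ 1 + Real.log N := by
  have h := harmonic_le_one_add_log N
  rw [harmonic_eq_sum_Icc] at h
  push_cast at h
  simpa [one_div] using h

/-- primes in the progression `1` modulo `d` whose cofactor is prime to the elements of `Q` -/
theorem good_primes (K Z d G : ℕ) (c C : ℝ) (Q : Finset ℕ) (hC : 0 < C) (hd : 0 < d)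
    (hG : 0 < G) (hQ : ∀ q ∈ Q, q.Prime ∧ G < q) (hsum : C * ((Q.card : ℝ) / G) ≤ c / 2)
    (hlow : c / (d.totient : ℝ) ≤ SP K Z d 1)
    (hup : ∀ q ∈ Q, SP K Z (d * q) 1 ≤ C / ((d * q).totient : ℝ)) :
    c / 2 ≤ ∑ k ∈ (Icc 1 (Z ^ K)).filter
      (fun k => (d * k + 1).Prime ∧ Z < d * k + 1 ∧ ∀ q ∈ Q, ¬ q ∣ k), (1 : ℝ) / k := by
  classical
  have hphi : (0 : ℝ) < d.totient := by exact_mod_cast Nat.totient_pos.2 hd
  set A : Finset ℕ := (Ioc Z (Z ^ K)).filter (fun p => p.Prime ∧ p ≡ 1 [MOD d]) with hA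
  set A1 : Finset ℕ := A.filter (fun p => ∀ q ∈ Q, ¬ p ≡ 1 [MOD d * q]) with hA1
  have hG0 : (0 : ℝ) < G := by exact_mod_cast hG
  -- removing the bad primes
  have h1 : SP K Z d 1 ≤ ∑ p ∈ A1, (1 : ℝ) / p + ∑ q ∈ Q, SP K Z (d * q) 1 := by
    have h2 : SP K Z d 1 = ∑ p ∈ A1, (1 : ℝ) / p +
        ∑ p ∈ A.filter (fun p => ¬ ∀ q ∈ Q, ¬ p ≡ 1 [MOD d * q]), (1 : ℝ) / p := by
      unfold SP
      rw [hA1, Finset.sum_filter_add_sum_filter_not]
    rw [h2]
    apply add_le_add le_rfl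
    have h3 : ∀ p ∈ A.filter (fun p => ¬ ∀ q ∈ Q, ¬ p ≡ 1 [MOD d * q]), (1 : ℝ) / p ≤
        ∑ q ∈ Q, if p ≡ 1 [MOD d * q] then (1 : ℝ) / p else 0 := by
      intro p hp
      rw [mem_filter] at hp
      have hp2 := hp.2
      push Not at hp2
      obtain ⟨q, hq, hpq⟩ := hp2
      calc (1 : ℝ) / p = if p ≡ 1 [MOD d * q] then (1 : ℝ) / p else 0 := by rw [if_pos hpq]
        _ ≤ _ := Finset.single_le_sum (f := fun q => if p ≡ 1 [MOD d * q] then (1 : ℝ) / p else 0)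
            (fun _ _ => by split_ifs <;> positivity) hq
    refine (Finset.sum_le_sum h3).trans ?_
    rw [Finset.sum_comm]
    apply Finset.sum_le_sum
    intro q hq
    rw [← Finset.sum_filter]
    unfold SP
    apply Finset.sum_le_sum_of_subset_of_nonneg
    · intro p hp
      rw [mem_filter, mem_filter, hA, mem_filter] at hp
      rw [mem_filter]
      exact ⟨hp.1.1.1, hp.1.1.2.1, hp.2⟩
    · intro _ _ _
      positivity
  have h2 : ∑ q ∈ Q, SP K Z (d * q) 1 ≤ c / 2 / d.totient := by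
    have h3 : ∀ q ∈ Q, SP K Z (d * q) 1 ≤ C / (d.totient * G) := by
      intro q hq
      refine (hup q hq).trans ?_
      apply div_le_div_of_nonneg_left hC.le (by positivity)
      have h4 : d.totient * q.totient ≤ (d * q).totient := Nat.totient_super_multiplicative d q
      have h5 : G ≤ q.totient := by
        rw [Nat.totient_prime (hQ q hq).1]
        have := (hQ q hq).2
        omega
      have h6 : d.totient * G ≤ (d * q).totient := (Nat.mul_le_mul_left _ h5).trans h4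
      exact_mod_cast h6
    refine (Finset.sum_le_sum h3).trans ?_
    rw [Finset.sum_const, nsmul_eq_mul, le_div_iff₀ hphi]
    refine le_trans (le_of_eq ?_) hsum
    field_simp
  have h3 : c / 2 / d.totient ≤ ∑ p ∈ A1, (1 : ℝ) / p := by
    have h4 : c / (d.totient : ℝ) = c / 2 / d.totient + c / 2 / d.totient := by ring
    linarith
  have hc2 : 0 ≤ c / 2 := le_trans (by positivity) hsum
  have hdR : (0 : ℝ) < d := by exact_mod_cast hd
  have h4 : c / 2 ≤ ∑ p ∈ A1, (d : ℝ) / p := by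
    have h5 : c / 2 / d ≤ ∑ p ∈ A1, (1 : ℝ) / p := by
      refine le_trans ?_ h3
      apply div_le_div_of_nonneg_left hc2 hphi
      exact_mod_cast Nat.totient_le d
    have h6 : ∑ p ∈ A1, (d : ℝ) / p = d * ∑ p ∈ A1, (1 : ℝ) / p := by
      rw [Finset.mul_sum]
      apply Finset.sum_congr rfl
      intro p _
      ring
    rw [h6]
    rw [div_le_iff₀ hdR] at h5
    linarith
  refine h4.trans ?_
  -- the map to the cofactors
  have hdiv : ∀ p ∈ A1, p = d * ((p - 1) / d) + 1 := by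
    intro p hp
    rw [hA1, mem_filter, hA, mem_filter] at hp
    have h5 : d ∣ p - 1 := (Nat.modEq_iff_dvd' hp.1.2.1.one_le).1 hp.1.2.2.symm
    rw [Nat.mul_div_cancel' h5]
    have := hp.1.2.1.two_le
    omega
  have hinj : Set.InjOn (fun p => (p - 1) / d) (A1 : Set ℕ) := by
    intro p hp p' hp' h
    rw [hdiv p hp, hdiv p' hp']
    simp only at h
    rw [h]
  have h5 : ∑ p ∈ A1, (d : ℝ) / p ≤ ∑ p ∈ A1, (1 : ℝ) / (((p - 1) / d : ℕ) : ℝ) := by
    apply Finset.sum_le_sum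
    intro p hp
    have h6 := hdiv p hp
    have hpp : p.Prime := by
      rw [hA1, mem_filter, hA, mem_filter] at hp
      exact hp.1.2.1
    set k := (p - 1) / d with hk
    have hk0 : 0 < k := by
      rcases Nat.eq_zero_or_pos k with h0 | h0
      · rw [h0, mul_zero] at h6
        have := hpp.two_le
        omega
      · exact h0
    have hkR : (0 : ℝ) < k := by exact_mod_cast hk0
    have h7 : (p : ℝ) = d * k + 1 := by exact_mod_cast h6
    rw [h7, div_le_div_iff₀ (by positivity) hkR]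
    linarith
  refine h5.trans ?_
  rw [← Finset.sum_image (f := fun k : ℕ => (1 : ℝ) / (k : ℝ)) hinj]
  apply Finset.sum_le_sum_of_subset_of_nonneg
  · intro k hk
    rw [mem_image] at hk
    obtain ⟨p, hp, hpk⟩ := hk
    have h6 := hdiv p hp
    rw [hpk] at h6
    have hp' := hp
    rw [hA1, mem_filter, hA, mem_filter, mem_Ioc] at hp'
    obtain ⟨⟨⟨hp1, hp2⟩, hpp, _⟩, hpq⟩ := hp'
    rw [mem_filter, mem_Icc, ← h6]
    refine ⟨⟨?_, ?_⟩, hpp, hp1, ?_⟩
    · rcases Nat.eq_zero_or_pos k with h0 | h0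
      · rw [h0, mul_zero] at h6
        have := hpp.two_le
        omega
      · exact h0
    · refine le_trans ?_ hp2
      rw [h6]
      nlinarith
    · intro q hq hqk
      apply hpq q hq
      apply Nat.ModEq.symm
      rw [Nat.modEq_iff_dvd' hpp.one_le, h6, Nat.add_sub_cancel]
      exact Nat.mul_dvd_mul_left d hqk
  · intro _ _ _
    positivity

open Classical in
/-- **Step B.** -/
theorem stepB (K Z G u M : ℕ) (c C : ℝ) (Q : Finset ℕ) (hC : 0 < C) (hZ : 1 ≤ Z) (hM1 : 1 ≤ M)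
    (hG : 0 < G) (hQ : ∀ q ∈ Q, q.Prime ∧ G < q) (hsum : C * ((Q.card : ℝ) / G) ≤ c / 2)
    (hlow : ∀ S ⊆ Q, S.card = u → c / ((∏ q ∈ S, q : ℕ).totient : ℝ) ≤ SP K Z (∏ q ∈ S, q) 1)
    (hup : ∀ S ⊆ Q, S.card = u → ∀ q ∈ Q,
      SP K Z ((∏ q ∈ S, q) * q) 1 ≤ C / (((∏ q ∈ S, q) * q : ℕ).totient : ℝ))
    (hM : (M : ℝ) * (1 + K * Real.log Z) ≤ c / 2 * (Q.card.choose u : ℕ)) :
    ∃ k : ℕ, 0 < k ∧ (∀ q ∈ Q, ¬ q ∣ k) ∧
      M ≤ ((Q.powersetCard u).filter
        (fun S => ((∏ q ∈ S, q) * k + 1).Prime ∧ Z < (∏ q ∈ S, q) * k + 1)).card := by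
  by_contra hcon
  push Not at hcon
  have hlogZ : 0 ≤ Real.log Z := Real.log_natCast_nonneg Z
  have h1 : (c / 2) * (Q.card.choose u : ℕ) ≤ ∑ S ∈ Q.powersetCard u,
      ∑ k ∈ (Icc 1 (Z ^ K)).filter (fun k => ((∏ q ∈ S, q) * k + 1).Prime ∧
        Z < (∏ q ∈ S, q) * k + 1 ∧ ∀ q ∈ Q, ¬ q ∣ k), (1 : ℝ) / k := by
    rw [← Finset.card_powersetCard, mul_comm, ← nsmul_eq_mul, ← Finset.sum_const]
    apply Finset.sum_le_sum
    intro S hS
    rw [mem_powersetCard] at hS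
    have hd : 0 < ∏ q ∈ S, q := Finset.prod_pos fun q hq => (hQ q (hS.1 hq)).1.pos
    exact good_primes K Z (∏ q ∈ S, q) G c C Q hC hd hG hQ hsum (hlow S hS.1 hS.2)
      (hup S hS.1 hS.2)
  have h2 : ∑ S ∈ Q.powersetCard u,
      ∑ k ∈ (Icc 1 (Z ^ K)).filter (fun k => ((∏ q ∈ S, q) * k + 1).Prime ∧
        Z < (∏ q ∈ S, q) * k + 1 ∧ ∀ q ∈ Q, ¬ q ∣ k), (1 : ℝ) / k ≤
      ∑ k ∈ Icc 1 (Z ^ K), ((M : ℝ) - 1) * (1 / k) := by
    simp_rw [Finset.sum_filter]
    rw [Finset.sum_comm]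
    apply Finset.sum_le_sum
    intro k hk
    rw [mem_Icc] at hk
    rw [← Finset.sum_filter, Finset.sum_const, nsmul_eq_mul]
    apply mul_le_mul_of_nonneg_right _ (by positivity)
    by_cases hkQ : ∀ q ∈ Q, ¬ q ∣ k
    · have h3 := hcon k hk.1 hkQ
      have h4 : ((Q.powersetCard u).filter (fun S => ((∏ q ∈ S, q) * k + 1).Prime ∧
        Z < (∏ q ∈ S, q) * k + 1 ∧ ∀ q ∈ Q, ¬ q ∣ k)).card ≤
        ((Q.powersetCard u).filter
        (fun S => ((∏ q ∈ S, q) * k + 1).Prime ∧ Z < (∏ q ∈ S, q) * k + 1)).card := by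
        apply Finset.card_le_card
        intro S hS
        rw [mem_filter] at hS ⊢
        exact ⟨hS.1, hS.2.1, hS.2.2.1⟩
      have h5 : ((Q.powersetCard u).filter (fun S => ((∏ q ∈ S, q) * k + 1).Prime ∧
        Z < (∏ q ∈ S, q) * k + 1 ∧ ∀ q ∈ Q, ¬ q ∣ k)).card + 1 ≤ M := by omega
      have h6 : ((((Q.powersetCard u).filter (fun S => ((∏ q ∈ S, q) * k + 1).Prime ∧
        Z < (∏ q ∈ S, q) * k + 1 ∧ ∀ q ∈ Q, ¬ q ∣ k)).card : ℕ) : ℝ) + 1 ≤ M := by
        exact_mod_cast h5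
      linarith
    · have h3 : (Q.powersetCard u).filter (fun S => ((∏ q ∈ S, q) * k + 1).Prime ∧
        Z < (∏ q ∈ S, q) * k + 1 ∧ ∀ q ∈ Q, ¬ q ∣ k) = ∅ := by
        rw [Finset.filter_eq_empty_iff]
        intro S _ h
        exact hkQ h.2.2
      rw [h3, card_empty]
      have : (1 : ℝ) ≤ M := by exact_mod_cast hM1
      push_cast
      linarith
  have h3 : ∑ k ∈ Icc 1 (Z ^ K), ((M : ℝ) - 1) * (1 / k) ≤ ((M : ℝ) - 1) * (1 + K * Real.log Z) := by
    rw [← Finset.mul_sum]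
    have hM' : (0 : ℝ) ≤ (M : ℝ) - 1 := by
      have : (1 : ℝ) ≤ M := by exact_mod_cast hM1
      linarith
    apply mul_le_mul_of_nonneg_left _ hM'
    have h4 := harmonic_bound (Z ^ K)
    have h5 : Real.log ((Z ^ K : ℕ) : ℝ) = K * Real.log Z := by
      push_cast
      rw [Real.log_pow]
    rw [h5] at h4
    exact h4
  have h4 : 0 < 1 + K * Real.log Z := by positivity
  nlinarith

end Pool.Agent.TH909
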