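import Pool.Agent.TH909.StepA
import Pool.Agent.TH909.StepB
import Pool.Agent.TH909.Carm

/-!
# Carmichael numbers without small prime factors, and the proportion of Fermat liars
-/

set_option autoImplicit false

open Finset Filter

namespace Pool.Agent.TH909

theorem two_pow_le_centralBinom (n : ℕ) : 2 ^ n ≤ Nat.centralBinom n := by
  induction n with
  | zero => simp
  | succ n ih =>
    have h := Nat.succ_mul_centralBinom_succ n
    have h2 : (n + 1) * (2 * Nat.centralBinom n) ≤ (n + 1) * Nat.centralBinom (n + 1) := by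
      rw [h]
      calc (n + 1) * (2 * Nat.centralBinom n) = 2 * (n + 1) * Nat.centralBinom n := by ring
        _ ≤ 2 * (2 * n + 1) * Nat.centralBinom n := by
            apply Nat.mul_le_mul_right
            omega
    have h3 := Nat.le_of_mul_le_mul_left h2 (Nat.succ_pos n)
    calc 2 ^ (n + 1) = 2 * 2 ^ n := by ring
      _ ≤ 2 * Nat.centralBinom n := Nat.mul_le_mul_left _ ih
      _ ≤ _ := h3

theorem exp_beats (A0 k : ℕ) : ∃ g0 : ℕ, ∀ g : ℕ, g0 ≤ g → A0 * g ^ k ≤ 2 ^ g := by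
  have h := tendsto_pow_const_div_const_pow_of_one_lt k (show (1 : ℝ) < 2 by norm_num)
  have h2 : ∀ᶠ n : ℕ in atTop, (n : ℝ) ^ k / 2 ^ n < 1 / (A0 + 1) :=
    h.eventually_lt_const (by positivity)
  obtain ⟨g0, hg0⟩ := eventually_atTop.1 h2
  refine ⟨g0, fun g hg => ?_⟩
  have h3 := hg0 g hg
  rw [div_lt_div_iff₀ (by positivity) (by positivity)] at h3
  have h4 : (A0 : ℝ) * (g : ℝ) ^ k ≤ 2 ^ g := by
    have : (0 : ℝ) ≤ (g : ℝ) ^ k := by positivity
    nlinarith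
  exact_mod_cast h4

/-- an exponent of the unit group modulo a product of primes `q ≤ T` with `q - 1` free of prime
factors larger than `Y` -/
theorem exists_exponent (T Y : ℕ) (hT : 1 ≤ T) : ∃ m : ℕ, 0 < m ∧ m ≤ T ^ Y ∧
    ∀ q : ℕ, q.Prime → q ≤ T → (∀ l : ℕ, l.Prime → l ∣ q - 1 → l ≤ Y) → q - 1 ∣ m := by
  refine ⟨∏ p ∈ Nat.primesLE Y, p ^ Nat.log p T, ?_, ?_, ?_⟩
  · exact Finset.prod_pos fun p hp => Nat.pow_pos (Nat.prime_of_mem_primesLE hp).pos
  · have h1 : ∏ p ∈ Nat.primesLE Y, p ^ Nat.log p T ≤ T ^ (Nat.primesLE Y).card := by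
      apply Finset.prod_le_pow_card
      intro p _
      exact Nat.pow_log_le_self p (by omega)
    refine h1.trans (Nat.pow_le_pow_right hT ?_)
    have h2 : Nat.primesLE Y ⊆ Icc 1 Y := by
      intro p hp
      rw [mem_Icc]
      exact ⟨(Nat.prime_of_mem_primesLE hp).one_le, (Nat.mem_primesLE.1 hp).1⟩
    have h3 := Finset.card_le_card h2
    rwa [Nat.card_Icc, Nat.add_sub_cancel] at h3
  · intro q hq hqT hl
    have hq1 : q - 1 ≠ 0 := by
      have := hq.two_le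
      omega
    have h1 : q - 1 = ∏ p ∈ (q - 1).primeFactors, p ^ (q - 1).factorization p := by
      have h2 := Nat.prod_factorization_pow_eq_self hq1
      rw [Finsupp.prod, Nat.support_factorization] at h2
      exact h2.symm
    have h2 : ∏ p ∈ (q - 1).primeFactors, p ^ (q - 1).factorization p ∣
        ∏ p ∈ (q - 1).primeFactors, p ^ Nat.log p T := by
      apply Finset.prod_dvd_prod_of_dvd
      intro p hp
      have hpp := Nat.prime_of_mem_primeFactors hp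
      apply pow_dvd_pow
      apply Nat.le_log_of_pow_le hpp.one_lt
      have h3 : p ^ (q - 1).factorization p ≤ q - 1 :=
        Nat.le_of_dvd (Nat.pos_of_ne_zero hq1) (Nat.ordProj_dvd _ _)
      omega
    have h3 : ∏ p ∈ (q - 1).primeFactors, p ^ Nat.log p T ∣
        ∏ p ∈ Nat.primesLE Y, p ^ Nat.log p T := by
      apply Finset.prod_dvd_prod_of_subset
      intro p hp
      rw [Nat.mem_primesLE]
      exact ⟨hl p (Nat.prime_of_mem_primeFactors hp) (Nat.dvd_of_mem_primeFactors hp),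
        Nat.prime_of_mem_primeFactors hp⟩
    rw [h1]
    exact h2.trans h3

/-- **Main theorem.** -/
theorem main (ε : ℝ) (hε : 0 < ε) (N : ℕ) : ∃ n : ℕ, N < n ∧ 1 < n ∧ ¬ Nat.Prime n ∧
      (1 - ε) * (n : ℝ) <
        (((Finset.range n).filter (fun a => a ^ (n - 1) ≡ 1 [MOD n])).card : ℝ) := by
  classical
  obtain ⟨K, c, C, hK, hc, hC, z0, H⟩ := primesX
  obtain ⟨g1, hA⟩ := stepA K z0 c hK hc (fun z hz => (H z hz).1)
  obtain ⟨J, hJ⟩ : ∃ J : ℕ, J = 128 * K + 1 := ⟨_, rfl⟩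
  obtain ⟨A0, hA0⟩ : ∃ A0 : ℕ, A0 = ⌈66 * (K : ℝ) * (J : ℝ) ^ 2 / c⌉₊ + 1 := ⟨_, rfl⟩
  obtain ⟨g2, hg2⟩ := exp_beats A0 (3 * J)
  obtain ⟨g, hg⟩ : ∃ g : ℕ, g = g1 + g2 + N + z0 + 3 + ⌈(J : ℝ) / ε⌉₊ + ⌈2 * C / c⌉₊ + 1 :=
    ⟨_, rfl⟩
  have hK0 : (0 : ℝ) < K := by exact_mod_cast hK
  have hg3 : 3 ≤ g := by omega
  have hg0 : 0 < g := by omega
  have hgR : (3 : ℝ) ≤ g := by exact_mod_cast hg3
  have hgJ : (J : ℝ) / ε < g := by
    have h1 := Nat.le_ceil ((J : ℝ) / ε)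
    have h2 : ⌈(J : ℝ) / ε⌉₊ < g := by omega
    have h3 : ((⌈(J : ℝ) / ε⌉₊ : ℕ) : ℝ) < g := by exact_mod_cast h2
    linarith
  have hgC : 2 * C / c ≤ g := by
    have h1 := Nat.le_ceil (2 * C / c)
    have h2 : ⌈2 * C / c⌉₊ ≤ g := by omega
    have h3 : ((⌈2 * C / c⌉₊ : ℕ) : ℝ) ≤ g := by exact_mod_cast h2
    linarith
  obtain ⟨i, hi1, hi2, Q, hQcard, hQ⟩ := hA g (by omega)
  have hpow := hg2 g (by omega)
  -- the parameters
  obtain ⟨Y, hY⟩ : ∃ Y : ℕ, Y = g ^ (i - 3) := ⟨_, rfl⟩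
  obtain ⟨u, hu⟩ : ∃ u : ℕ, u = g * Y := ⟨_, rfl⟩
  obtain ⟨T, hT⟩ : ∃ T : ℕ, T = g ^ (i + 1) := ⟨_, rfl⟩
  obtain ⟨Z, hZ⟩ : ∃ Z : ℕ, Z = T ^ (16 * (u + 1)) := ⟨_, rfl⟩
  have hY1 : 1 ≤ Y := by rw [hY]; exact Nat.one_le_pow _ _ hg0
  have hu1 : 1 ≤ u := by rw [hu]; exact Nat.mul_pos hg0 hY1
  have hYu : Y ≤ u := by rw [hu]; exact Nat.le_mul_of_pos_left Y hg0
  have hT1 : 1 ≤ T := by rw [hT]; exact Nat.one_le_pow _ _ hg0
  have hQc : Q.card = g * u := by
    rw [hQcard, hu, hY, ← mul_assoc, ← pow_two, ← pow_add]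
    congr 1
    omega
  have hgi : g ^ i = g * Q.card := by
    rw [hQcard, ← pow_succ']
    congr 1
    omega
  have hgT : g ≤ T := by rw [hT]; exact Nat.le_self_pow (by omega) g
  have hTZ : T ≤ Z := by rw [hZ]; exact Nat.le_self_pow (by omega) T
  have hZ1 : 1 ≤ Z := hT1.trans hTZ
  have hiJ : i + 1 ≤ J := by omega
  obtain ⟨f, hf1, hf0, hf⟩ := (H Z (by omega)).1
  have hup := (H Z (by omega)).2
  set Q' : Finset ℕ := Q.erase f.minFac with hQ'
  have hl0 : f.minFac.Prime := Nat.minFac_prime hf1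
  have hQ'sub : ∀ q ∈ Q', q ∈ Q := fun q hq => (mem_erase.1 hq).2
  have hQ'c1 : Q'.card ≤ g * u := by
    rw [← hQc]
    exact Finset.card_le_card (Finset.erase_subset _ _)
  have hQ'c2 : 2 * u ≤ Q'.card := by
    have h1 : Q.card - 1 ≤ Q'.card := Finset.pred_card_le_card_erase
    rw [hQc] at h1
    have h2 : 3 * u ≤ g * u := Nat.mul_le_mul_right u hg3
    omega
  -- products of elements of `Q'`
  have hdpos : ∀ S ⊆ Q', 1 ≤ ∏ q ∈ S, q := fun S hS =>
    Finset.prod_pos fun q hq => (hQ q (hQ'sub q (hS hq))).1.pos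
  have hdle : ∀ S ⊆ Q', ∏ q ∈ S, q ≤ T ^ S.card := by
    intro S hS
    apply Finset.prod_le_pow_card
    intro q hq
    rw [hT]
    exact (hQ q (hQ'sub q (hS hq))).2.2.1
  have hlow : ∀ S ⊆ Q', S.card = u →
      c / ((∏ q ∈ S, q : ℕ).totient : ℝ) ≤ SP K Z (∏ q ∈ S, q) 1 := by
    intro S hS hSu
    apply hf _ 1 (hdpos S hS)
    · calc (∏ q ∈ S, q) ^ 16 ≤ (T ^ u) ^ 16 := by
            apply Nat.pow_le_pow_left
            rw [← hSu]
            exact hdle S hS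
        _ = T ^ (16 * u) := by rw [← pow_mul, mul_comm]
        _ ≤ Z := by rw [hZ]; exact Nat.pow_le_pow_right hT1 (by omega)
    · exact Nat.coprime_one_left _
    · intro hfd
      have h1 : f.minFac ∣ ∏ q ∈ S, q := (Nat.minFac_dvd f).trans hfd
      obtain ⟨q, hq, hlq⟩ := (Prime.dvd_finsetProd_iff hl0.prime _).1 h1
      have h2 := (Nat.prime_dvd_prime_iff_eq hl0 (hQ q (hQ'sub q (hS hq))).1).1 hlq
      have h3 := hS hq
      rw [hQ', mem_erase] at h3
      exact h3.1 h2.symm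
  have hup' : ∀ S ⊆ Q', S.card = u → ∀ q ∈ Q',
      SP K Z ((∏ q ∈ S, q) * q) 1 ≤ C / (((∏ q ∈ S, q) * q : ℕ).totient : ℝ) := by
    intro S hS hSu q hq
    have hqp := (hQ q (hQ'sub q hq)).1
    apply hup _ 1 (Nat.mul_pos (hdpos S hS) hqp.pos)
    · calc ((∏ q ∈ S, q) * q) ^ 8 ≤ (T ^ u * T) ^ 8 := by
            apply Nat.pow_le_pow_left
            apply Nat.mul_le_mul
            · rw [← hSu]
              exact hdle S hS
            · rw [hT]
              exact (hQ q (hQ'sub q hq)).2.2.1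
        _ = T ^ (8 * (u + 1)) := by rw [← pow_succ, ← pow_mul, mul_comm]
        _ ≤ Z := by rw [hZ]; exact Nat.pow_le_pow_right hT1 (by omega)
    · exact Nat.coprime_one_left _
  have hG : ∀ q ∈ Q', q.Prime ∧ g ^ i < q := fun q hq =>
    ⟨(hQ q (hQ'sub q hq)).1, (hQ q (hQ'sub q hq)).2.1⟩
  have hsum : C * ((Q'.card : ℝ) / (g ^ i : ℕ)) ≤ c / 2 := by
    have h1 : (Q'.card : ℝ) ≤ Q.card := by
      rw [hQc]
      exact_mod_cast hQ'c1
    have h2 : ((g ^ i : ℕ) : ℝ) = g * Q.card := by exact_mod_cast hgi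
    have h3 : (0 : ℝ) < Q.card := by
      rw [hQc]
      exact_mod_cast Nat.mul_pos hg0 hu1
    have h4 : (Q'.card : ℝ) / (g ^ i : ℕ) ≤ 1 / g := by
      rw [h2, div_le_div_iff₀ (by positivity) (by positivity)]
      nlinarith
    calc C * ((Q'.card : ℝ) / (g ^ i : ℕ)) ≤ C * (1 / g) := mul_le_mul_of_nonneg_left h4 hC.le
      _ ≤ c / 2 := by
          rw [mul_one_div, div_le_iff₀ (by positivity)]
          rw [div_le_iff₀ hc] at hgC
          linarith
  -- the size of the family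
  obtain ⟨M, hM⟩ : ∃ M : ℕ, M = T ^ Y * (g * u * (i + 1) * g) := ⟨_, rfl⟩
  have hM1 : 1 ≤ M := by
    rw [hM]
    apply Nat.mul_pos (Nat.pow_pos hT1)
    positivity
  have hlogT : Real.log T = (i + 1 : ℕ) * Real.log g := by
    rw [hT]
    push_cast
    rw [Real.log_pow]
    push_cast
    ring
  have hlogg : Real.log g < g := by
    have := Real.log_lt_sub_one_of_pos (show (0 : ℝ) < g by positivity) (by linarith)
    linarith
  have hlogg0 : 0 ≤ Real.log g := Real.log_natCast_nonneg g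
  have hMlog : (M : ℝ) * (1 + K * Real.log Z) ≤ c / 2 * (Q'.card.choose u : ℕ) := by
    have hlogZ : Real.log Z = (16 * (u + 1) : ℕ) * Real.log T := by
      rw [hZ]
      push_cast
      rw [Real.log_pow]
      push_cast
      ring
    have huR : (1 : ℝ) ≤ u := by exact_mod_cast hu1
    have hJR : (1 : ℝ) ≤ J := by rw [hJ]; push_cast; linarith
    have hKR : (1 : ℝ) ≤ K := by exact_mod_cast hK
    have hiR : ((i + 1 : ℕ) : ℝ) ≤ J := by exact_mod_cast hiJ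
    have h1 : 1 + K * Real.log Z ≤ 33 * K * J * (u * g) := by
      rw [hlogZ, hlogT]
      have h2 : ((16 * (u + 1) : ℕ) : ℝ) ≤ 32 * u := by
        push_cast
        linarith
      have h3 : ((16 * (u + 1) : ℕ) : ℝ) * (((i + 1 : ℕ) : ℝ) * Real.log g) ≤ 32 * u * (J * g) := by
        apply mul_le_mul h2 _ (by positivity) (by positivity)
        exact mul_le_mul hiR hlogg.le hlogg0 (by positivity)
      have h4 : (K : ℝ) * (((16 * (u + 1) : ℕ) : ℝ) * (((i + 1 : ℕ) : ℝ) * Real.log g)) ≤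
          K * (32 * u * (J * g)) := mul_le_mul_of_nonneg_left h3 hK0.le
      have h5 : (1 : ℝ) ≤ K * J * (u * g) := by
        have h6 : (1 : ℝ) ≤ K * J := one_le_mul_of_one_le_of_one_le hKR hJR
        have h7 : (1 : ℝ) ≤ u * g := one_le_mul_of_one_le_of_one_le huR (by linarith)
        exact one_le_mul_of_one_le_of_one_le h6 h7
      calc 1 + (K : ℝ) * (((16 * (u + 1) : ℕ) : ℝ) * (((i + 1 : ℕ) : ℝ) * Real.log g))
          ≤ K * J * (u * g) + K * (32 * u * (J * g)) := add_le_add h5 h4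
        _ = 33 * K * J * (u * g) := by ring
    have h2 : (M : ℝ) ≤ (g : ℝ) ^ ((i + 1) * Y) * (g * u * J * g) := by
      rw [hM, hT]
      push_cast
      rw [← pow_mul]
      apply mul_le_mul_of_nonneg_left _ (by positivity)
      apply mul_le_mul_of_nonneg_right _ (by positivity)
      apply mul_le_mul_of_nonneg_left _ (by positivity)
      exact_mod_cast hiJ
    have h3 : (M : ℝ) * (1 + K * Real.log Z) ≤
        ((g : ℝ) ^ ((i + 1) * Y) * (g * u * J * g)) * (33 * K * J * (u * g)) := by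
      apply mul_le_mul h2 h1 _ (by positivity)
      have := Real.log_natCast_nonneg Z
      positivity
    refine h3.trans ?_
    -- `g ^ ((i + 1) Y) * u ^ 2 * g ^ 3` is small
    have hug : (u : ℝ) = (g : ℝ) ^ (i - 2) := by
      rw [hu, hY]
      push_cast
      rw [← pow_succ']
      congr 1
      omega
    have h4 : ((g : ℝ) ^ ((i + 1) * Y) * (g * u * J * g)) * (33 * K * J * (u * g)) =
        33 * K * J ^ 2 * (g : ℝ) ^ ((i + 1) * Y + 2 * (i - 2) + 3) := by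
      rw [hug, pow_add, pow_add, two_mul (i - 2), pow_add]
      ring
    rw [h4]
    have hexpo : (i + 1) * Y + 2 * (i - 2) + 3 ≤ 3 * J * Y := by
      have h5 : (i + 1) * Y ≤ J * Y := Nat.mul_le_mul_right Y hiJ
      have h6 : 2 * (i - 2) + 3 ≤ 2 * J := by omega
      have h7 : 2 * J ≤ 2 * J * Y := Nat.le_mul_of_pos_right _ hY1
      calc (i + 1) * Y + 2 * (i - 2) + 3 ≤ J * Y + 2 * J * Y := by omega
        _ = 3 * J * Y := by ring
    have hA0c : 66 * (K : ℝ) * (J : ℝ) ^ 2 ≤ A0 * c := by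
      have h5 := Nat.le_ceil (66 * (K : ℝ) * (J : ℝ) ^ 2 / c)
      have h6 : (A0 : ℝ) = (⌈66 * (K : ℝ) * (J : ℝ) ^ 2 / c⌉₊ : ℝ) + 1 := by
        rw [hA0]; push_cast; ring
      have h7 : 66 * (K : ℝ) * (J : ℝ) ^ 2 / c ≤ A0 := by linarith
      rwa [div_le_iff₀ hc] at h7
    have h5 : A0 * g ^ ((i + 1) * Y + 2 * (i - 2) + 3) ≤ Q'.card.choose u := by
      calc A0 * g ^ ((i + 1) * Y + 2 * (i - 2) + 3) ≤ A0 ^ Y * g ^ (3 * J * Y) := by
            apply Nat.mul_le_mul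
            · exact Nat.le_self_pow (by omega) A0
            · exact Nat.pow_le_pow_right hg0 hexpo
        _ = (A0 * g ^ (3 * J)) ^ Y := by rw [mul_pow, ← pow_mul]
        _ ≤ (2 ^ g) ^ Y := Nat.pow_le_pow_left hpow Y
        _ = 2 ^ u := by rw [hu, ← pow_mul]
        _ ≤ Nat.centralBinom u := two_pow_le_centralBinom u
        _ = (2 * u).choose u := Nat.centralBinom_eq_two_mul_choose u
        _ ≤ Q'.card.choose u := Nat.choose_le_choose u hQ'c2
    have h6 : (A0 : ℝ) * (g : ℝ) ^ ((i + 1) * Y + 2 * (i - 2) + 3) ≤ (Q'.card.choose u : ℕ) := by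
      exact_mod_cast h5
    have h7 : (0 : ℝ) < (g : ℝ) ^ ((i + 1) * Y + 2 * (i - 2) + 3) := by positivity
    calc 33 * K * J ^ 2 * (g : ℝ) ^ ((i + 1) * Y + 2 * (i - 2) + 3) =
          (66 * (K : ℝ) * (J : ℝ) ^ 2) / 2 * (g : ℝ) ^ ((i + 1) * Y + 2 * (i - 2) + 3) := by ring
      _ ≤ (A0 * c) / 2 * (g : ℝ) ^ ((i + 1) * Y + 2 * (i - 2) + 3) := by gcongr
      _ = c / 2 * (A0 * (g : ℝ) ^ ((i + 1) * Y + 2 * (i - 2) + 3)) := by ring
      _ ≤ c / 2 * (Q'.card.choose u : ℕ) := by gcongr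
  obtain ⟨k, hk0, hkQ, hkM⟩ := stepB K Z (g ^ i) u M c C Q' hC hZ1 hM1 (Nat.pow_pos hg0) hG hsum
    hlow hup' hMlog
  obtain ⟨s, hs, hsc⟩ := Finset.exists_subset_card_eq hkM
  have hsmem : ∀ S ∈ s, S ⊆ Q' ∧ S.card = u ∧ ((∏ q ∈ S, q) * k + 1).Prime ∧
      Z < (∏ q ∈ S, q) * k + 1 := by
    intro S hS
    have h := hs hS
    rw [mem_filter, mem_powersetCard] at h
    exact ⟨h.1.1, h.1.2, h.2.1, h.2.2⟩
  -- the exponent
  obtain ⟨m, hm0, hmT, hmq⟩ := exists_exponent T Y hT1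
  have hQm : ∀ q ∈ Q', q.Prime ∧ q - 1 ∣ m := by
    intro q hq
    obtain ⟨h1, _, h3, h4⟩ := hQ q (hQ'sub q hq)
    exact ⟨h1, hmq q h1 (by rw [hT]; exact h3) (by rw [hY]; exact h4)⟩
  have hx : ∀ S ∈ s, ∀ q ∈ Q', ¬ q ∣ (∏ q ∈ S, q) * k + 1 := by
    intro S hS q hq hdvd
    obtain ⟨_, _, h3, h4⟩ := hsmem S hS
    obtain ⟨h5, _, h6, _⟩ := hQ q (hQ'sub q hq)
    have h7 := (Nat.prime_dvd_prime_iff_eq h5 h3).1 hdvd
    have h8 : q ≤ T := by rw [hT]; exact h6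
    omega
  have hlogL : (m : ℝ) * Real.log ((∏ q ∈ Q', q : ℕ) : ℝ) < s.card := by
    rw [hsc, hM]
    have h1 : ((∏ q ∈ Q', q : ℕ) : ℝ) ≤ (T : ℝ) ^ (g * u) := by
      have h2 : ∏ q ∈ Q', q ≤ T ^ (g * u) :=
        (hdle Q' (Finset.Subset.refl _)).trans (Nat.pow_le_pow_right hT1 hQ'c1)
      exact_mod_cast h2
    have h2 : Real.log ((∏ q ∈ Q', q : ℕ) : ℝ) ≤ (g * u : ℕ) * Real.log T := by
      rw [← Real.log_pow]
      apply Real.log_le_log _ h1
      exact_mod_cast hdpos Q' (Finset.Subset.refl _)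
    have h3 : Real.log ((∏ q ∈ Q', q : ℕ) : ℝ) < (g * u * (i + 1) * g : ℕ) := by
      refine lt_of_le_of_lt h2 ?_
      rw [hlogT]
      push_cast
      have h4 : (0 : ℝ) < (g : ℝ) * u * (i + 1) := by positivity
      calc (g : ℝ) * u * (((i : ℝ) + 1) * Real.log g) = (g : ℝ) * u * (i + 1) * Real.log g := by ring
        _ < (g : ℝ) * u * (i + 1) * g := mul_lt_mul_of_pos_left hlogg h4
    have h4 : (0 : ℝ) ≤ Real.log ((∏ q ∈ Q', q : ℕ) : ℝ) := Real.log_natCast_nonneg _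
    have h5 : (m : ℝ) ≤ (T ^ Y : ℕ) := by exact_mod_cast hmT
    have h6 : (0 : ℝ) < ((T ^ Y : ℕ) : ℝ) := by exact_mod_cast Nat.pow_pos hT1
    have h7 : ((T ^ Y * (g * u * (i + 1) * g) : ℕ) : ℝ) =
        ((T ^ Y : ℕ) : ℝ) * ((g * u * (i + 1) * g : ℕ) : ℝ) := by push_cast; ring
    rw [h7]
    calc (m : ℝ) * Real.log ((∏ q ∈ Q', q : ℕ) : ℝ) ≤
          ((T ^ Y : ℕ) : ℝ) * Real.log ((∏ q ∈ Q', q : ℕ) : ℝ) := mul_le_mul_of_nonneg_right h5 h4
      _ < _ := mul_lt_mul_of_pos_left h3 h6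
  obtain ⟨t, hts, htn, htL⟩ := modEq_one_subset Q' m hm0 hQm s (fun S => (∏ q ∈ S, q) * k + 1) hx
    hlogL
  -- the number `n`
  have hinj : Set.InjOn (fun S : Finset ℕ => (∏ q ∈ S, q) * k + 1) (t : Set (Finset ℕ)) := by
    intro S hS S' hS' h
    simp only at h
    have h1 : (∏ q ∈ S, q) * k = (∏ q ∈ S', q) * k := by omega
    have h2 := Nat.eq_of_mul_eq_mul_right hk0 h1
    have h3 := (hsmem S (hts hS)).1
    have h4 := (hsmem S' (hts hS')).1
    exact prod_inj (fun p hp => (hQ p (hQ'sub p (h3 hp))).1)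
      (fun p hp => (hQ p (hQ'sub p (h4 hp))).1) h2
  set P : Finset ℕ := t.image (fun S : Finset ℕ => (∏ q ∈ S, q) * k + 1) with hP
  obtain ⟨n, hn⟩ : ∃ n : ℕ, n = ∏ p ∈ P, p := ⟨_, rfl⟩
  have hnt : n = ∏ S ∈ t, ((∏ q ∈ S, q) * k + 1) := by
    rw [hn, hP, Finset.prod_image hinj]
  have hPmem : ∀ p ∈ P, ∃ S ∈ t, p = (∏ q ∈ S, q) * k + 1 := by
    intro p hp
    rw [hP, mem_image] at hp
    obtain ⟨S, hS, h⟩ := hp
    exact ⟨S, hS, h.symm⟩
  have hPprime : ∀ p ∈ P, p.Prime ∧ Z < p := by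
    intro p hp
    obtain ⟨S, hS, h⟩ := hPmem p hp
    rw [h]
    exact ⟨(hsmem S (hts hS)).2.2.1, (hsmem S (hts hS)).2.2.2⟩
  have hnpos : 0 < n := by
    rw [hn]
    exact Finset.prod_pos fun p hp => (hPprime p hp).1.pos
  obtain ⟨S0, hS0⟩ := htn
  have hx0 : (∏ q ∈ S0, q) * k + 1 ∈ P := by
    rw [hP]
    exact Finset.mem_image_of_mem _ hS0
  have hx0n : (∏ q ∈ S0, q) * k + 1 ∣ n := by
    rw [hn]
    exact Finset.dvd_prod_of_mem _ hx0
  have hZn : Z < n := lt_of_lt_of_le (hPprime _ hx0).2 (Nat.le_of_dvd hnpos hx0n)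
  have hn1 : 1 < n := lt_of_le_of_lt hZ1 hZn
  set L : ℕ := ∏ q ∈ Q', q with hL
  have hLn : L ∣ n - 1 := by
    rw [← hnt] at htL
    exact (Nat.modEq_iff_dvd' hn1.le).1 htL.symm
  have hkn : k ∣ n - 1 := by
    apply (Nat.modEq_iff_dvd' hn1.le).1
    apply Nat.ModEq.symm
    rw [hnt]
    refine Finset.prod_induction _ (fun y => y ≡ 1 [MOD k]) (fun a b ha hb => ?_) ?_ ?_
    · have h : a * b ≡ 1 * 1 [MOD k] := Nat.ModEq.mul ha hb
      rwa [mul_one] at h
    · rfl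
    · intro S _
      have : (∏ q ∈ S, q) * k + 1 ≡ 0 + 1 [MOD k] :=
        Nat.ModEq.add_right 1 ((Nat.modEq_zero_iff_dvd).2 (Nat.dvd_mul_left k _))
      simpa using this
  have hLk : L.Coprime k := by
    rw [hL]
    apply Nat.Coprime.prod_left
    intro q hq
    exact (Nat.Prime.coprime_iff_not_dvd (hQ q (hQ'sub q hq)).1).2 (hkQ q hq)
  have hLkn : L * k ∣ n - 1 := Nat.Coprime.mul_dvd_of_dvd_of_dvd hLk hLn hkn
  have hkors : ∀ p ∈ P, p.Prime ∧ p - 1 ∣ n - 1 := by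
    intro p hp
    refine ⟨(hPprime p hp).1, ?_⟩
    obtain ⟨S, hS, h⟩ := hPmem p hp
    rw [h, Nat.add_sub_cancel]
    refine dvd_trans ?_ hLkn
    apply Nat.mul_dvd_mul_right
    rw [hL]
    exact Finset.prod_dvd_prod_of_subset _ _ _ (hsmem S (hts hS)).1
  have hnp : ¬ n.Prime := by
    intro hprime
    have h1 := (Nat.dvd_prime hprime).1 hx0n
    have h2 : (∏ q ∈ S0, q) * k + 1 = n := by
      rcases h1 with h | h
      · have := (hPprime _ hx0).1.two_le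
        omega
      · exact h
    have h3 : L ∣ (∏ q ∈ S0, q) * k := by
      rw [← h2, Nat.add_sub_cancel] at hLn
      exact hLn
    have h4 : L ∣ ∏ q ∈ S0, q := Nat.Coprime.dvd_of_dvd_mul_right hLk h3
    obtain ⟨hS0Q, hS0u, _, _⟩ := hsmem S0 (hts hS0)
    have h5 : L ≤ ∏ q ∈ S0, q := Nat.le_of_dvd (hdpos S0 hS0Q) h4
    have h6 : (∏ q ∈ Q' \ S0, q) * (∏ q ∈ S0, q) = L := by
      rw [hL]
      exact Finset.prod_sdiff hS0Q
    have h7 : (Q' \ S0).Nonempty := by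
      rw [← Finset.card_pos, Finset.card_sdiff_of_subset hS0Q]
      omega
    obtain ⟨q1, hq1⟩ := h7
    have h8 : 2 ≤ ∏ q ∈ Q' \ S0, q := by
      have h9 : q1 ∣ ∏ q ∈ Q' \ S0, q := Finset.dvd_prod_of_mem _ hq1
      have h10 : 0 < ∏ q ∈ Q' \ S0, q := Finset.prod_pos fun q hq =>
        (hQ q (hQ'sub q (mem_sdiff.1 hq).1)).1.pos
      exact ((hQ q1 (hQ'sub q1 (mem_sdiff.1 hq1).1)).1.two_le).trans (Nat.le_of_dvd h10 h9)
    have h9 := hdpos S0 hS0Q
    have h10 : 2 * (∏ q ∈ S0, q) ≤ (∏ q ∈ Q' \ S0, q) * (∏ q ∈ S0, q) := Nat.mul_le_mul_right _ h8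
    rw [h6] at h10
    omega
  -- the sum of the reciprocals
  have hPc : P.card ≤ M := by
    rw [hP, ← hsc]
    exact Finset.card_image_le.trans (Finset.card_le_card hts)
  have hsumP : ∑ p ∈ P, 1 / (p : ℝ) < ε := by
    have hZR : (0 : ℝ) < Z := by exact_mod_cast hZ1
    have h1 : ∑ p ∈ P, 1 / (p : ℝ) ≤ M / Z := by
      have h2 : ∀ p ∈ P, 1 / (p : ℝ) ≤ 1 / Z := by
        intro p hp
        apply one_div_le_one_div_of_le hZR
        exact_mod_cast (hPprime p hp).2.le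
      refine (Finset.sum_le_sum h2).trans ?_
      rw [Finset.sum_const, nsmul_eq_mul, mul_one_div]
      apply div_le_div_of_nonneg_right _ hZR.le
      exact_mod_cast hPc
    have h2 : M * g ≤ J * Z := by
      have h3 : g * u = g ^ (i - 1) := by rw [← hQc, hQcard]
      calc M * g = (i + 1) * (T ^ Y * (g ^ (i - 1) * g * g)) := by rw [hM, h3]; ring
        _ = (i + 1) * (T ^ Y * g ^ (i + 1)) := by
            have h4 : g ^ (i - 1) * g * g = g ^ (i + 1) := by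
              rw [← pow_succ, ← pow_succ]
              congr 1
              omega
            rw [h4]
        _ = (i + 1) * T ^ (Y + 1) := by rw [← hT, pow_succ]
        _ ≤ J * Z := by
            apply Nat.mul_le_mul hiJ
            rw [hZ]
            apply Nat.pow_le_pow_right hT1
            omega
    have h3 : (M : ℝ) / Z ≤ J / g := by
      rw [div_le_div_iff₀ hZR (by linarith)]
      exact_mod_cast h2
    have h4 : (J : ℝ) / g < ε := by
      rw [div_lt_iff₀ (by linarith)]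
      rw [div_lt_iff₀ hε] at hgJ
      linarith
    linarith
  refine ⟨n, ?_, hn1, hnp, ?_⟩
  · have : N ≤ g := by omega
    omega
  · have h1 := korselt_count P n hn hn1 hkors
    have hnR : (0 : ℝ) < n := by exact_mod_cast hnpos
    refine lt_of_lt_of_le ?_ h1
    apply mul_lt_mul_of_pos_right _ hnR
    linarith

end Pool.Agent.TH909
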