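import Pool.Agent.TH909.LinX
import Pool.Agent.W333.MH.FL
import Pool.Agent.W933.MH.Sum
import Pool.Agent.W505.MH.Diff
import Pool.Agent.W505.MH.BT
import Pool.Agent.W74.MH.B0
import Pool.Agent.W440.MH.B2
import Pool.Agent.W639.MH.Alg
import Pool.Agent.W215.MH.Eul
import Pool.Agent.W193.MH.Cls
import Pool.Agent.W701.MH.Abs
import Pool.Agent.W803.MH.Tail

/-!
# Primes in progressions away from one exceptional modulus
-/

set_option autoImplicit false

open Finset

namespace Pool.Agent.TH909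

open Pool.Agent.H262R3.Lk Pool.Agent.W69.MH
open Pool.Agent.H318R2.Cr (Rgh V)

/-- `∑ 1/p` over the primes `z < p ≤ z ^ K` in the class `b` modulo `q` -/
noncomputable def SP (K z q b : ℕ) : ℝ :=
  ∑ p ∈ (Ioc z (z ^ K)).filter (fun p => p.Prime ∧ p ≡ b [MOD q]), (1 : ℝ) / p

theorem linx_true : St_LINX := by
  have hSUM := Pool.Agent.W933.MHSum.sum_
  have hFL := Pool.Agent.W333.MH.fl
  have hDIFF := Pool.Agent.W505.MH.diff hFL hSUM
  have hA0 := Pool.Agent.W505.MH.a0 hFL hSUM
  have hCLS := Pool.Agent.W193.MH.Cls.cls hSUM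
  have hB0 := Pool.Agent.H262R3.Lk.b0 Pool.Agent.W505.MH.bt hSUM
  have hB2 := Pool.Agent.W440.MH.b2 hSUM
  have hALG := Pool.Agent.H262R3.Lk.alg hSUM
  exact linX hSUM hDIFF hA0 hB0 hB2 hALG Pool.Agent.W215.MH.eul hCLS Pool.Agent.W701.MH.abs_

theorem tail_true : St_TAIL :=
  Pool.Agent.W803.MH.tail Pool.Agent.W505.MH.bt Pool.Agent.W933.MHSum.sum_

theorem b0_true : St_B0 :=
  Pool.Agent.H262R3.Lk.b0 Pool.Agent.W505.MH.bt Pool.Agent.W933.MHSum.sum_

theorem Lj_changeLevel {z q Q : ℕ} (hQ : 0 < Q) (hQz : Q ≤ z) (h : q ∣ Q)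
    (χ : DirichletCharacter ℂ q) (j : ℕ) (σ : ℝ) :
    Lj z (DirichletCharacter.changeLevel h χ) j σ = Lj z χ j σ := by
  have hfz : ∀ n, fz z (DirichletCharacter.changeLevel h χ) n = fz z χ n := by
    intro n
    unfold fz
    split_ifs with hr
    · have hcop : n.Coprime Q := by
        apply Nat.coprime_of_dvd
        intro p hp hpn hpQ
        exact hr p hp ((Nat.le_of_dvd hQ hpQ).trans hQz) hpn
      have h2 := DirichletCharacter.changeLevel_eq_cast_of_dvd' χ h (a := (n : ℤ))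
        (by exact_mod_cast Nat.isCoprime_iff_coprime.2 hcop)
      simpa using h2
    · rfl
  unfold Lj
  simp only [hfz]

/-- **Primes in progressions with at most one exceptional modulus.** -/
theorem primesX : ∃ (K : ℕ) (c C : ℝ), 1 ≤ K ∧ 0 < c ∧ 0 < C ∧ ∃ z0 : ℕ, ∀ z : ℕ, z0 ≤ z →
    (∃ f : ℕ, f ≠ 1 ∧ 0 < f ∧ ∀ q b : ℕ, 1 ≤ q → q ^ 16 ≤ z → b.Coprime q → ¬ f ∣ q →
      c / (q.totient : ℝ) ≤ SP K z q b) ∧
    (∀ q b : ℕ, 1 ≤ q → q ^ 8 ≤ z → b.Coprime q → SP K z q b ≤ C / (q.totient : ℝ)) := by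
  obtain ⟨A, c, lam, hA, hc, hlam, hlow, hrep⟩ := linx_true
  obtain ⟨K, z2, hK, htail⟩ := tail_true A (c / 2) hA (by positivity)
  obtain ⟨C0, hC0, hB0⟩ := b0_true
  have hK0 : (0 : ℝ) < (K : ℝ) := by exact_mod_cast hK
  refine ⟨K, c / (2 * (K : ℝ) ^ 3), Real.exp K * (C0 * A), hK, by positivity, by positivity,
    max z2 32, ?_⟩
  intro z hz
  have hz2 : z2 ≤ z := le_trans (le_max_left _ _) hz
  have hz3 : 32 ≤ z := le_trans (le_max_right _ _) hz
  have hlog : (1 : ℝ) ≤ Real.log z := by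
    rw [Real.le_log_iff_exp_le (by exact_mod_cast (by omega : 0 < z))]
    have h5 : Real.exp 1 < 2.7182818286 := Real.exp_one_lt_d9
    have h6 : (32 : ℝ) ≤ (z : ℝ) := by exact_mod_cast hz3
    linarith
  have hAlog : (1 : ℝ) ≤ A * Real.log z := by nlinarith
  have hs0 : (0 : ℝ) < 1 / (A * Real.log z) := by positivity
  have hs1 : 1 / (A * Real.log z) ≤ (1 : ℝ) := by
    rw [div_le_one (by linarith)]
    exact hAlog
  set s : ℝ := 1 / (A * Real.log z) with hs
  have hsl : s * Real.log z = 1 / A := by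
    rw [hs]
    field_simp
  -- the lower bound for a modulus without exceptional character
  have hgood : ∀ (q b : ℕ) [NeZero q], q ^ 8 ≤ z → b.Coprime q →
      (∀ χ : DirichletCharacter ℂ q, χ ≠ 1 → χ ^ 2 = 1 → lam ≤ ‖Lj z χ 0 s‖) →
      c / (2 * (K : ℝ) ^ 3) / (q.totient : ℝ) ≤ SP K z q b := by
    intro q b _ hq hb hχ
    have hqpos : 0 < q := Nat.pos_of_ne_zero (NeZero.ne q)
    have h1 := hlow z q b hz3 hq hb hχ
    have hup := htail z q b hz2 hqpos hq hb
    have hphi : (0 : ℝ) < (q.totient : ℝ) := by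
      exact_mod_cast Nat.totient_pos.2 hqpos
    have hL3 : (0 : ℝ) < (Real.log z) ^ 3 := by positivity
    change c * (Real.log z) ^ 3 / (q.totient : ℝ) ≤ _ at h1
    unfold SP
    set S : ℝ := ∑ p ∈ (Ioc z (z ^ K)).filter (fun p => p.Prime ∧ p ≡ b [MOD q]), (1 : ℝ) / p
      with hS
    have h5 : c * (Real.log z) ^ 3 / (q.totient : ℝ) ≤
        c / 2 * (Real.log z) ^ 3 / (q.totient : ℝ) + (K : ℝ) ^ 3 * (Real.log z) ^ 3 * S :=
      le_trans h1 hup
    have h6 : (c / 2 / (q.totient : ℝ)) * (Real.log z) ^ 3 ≤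
        ((K : ℝ) ^ 3 * S) * (Real.log z) ^ 3 := by
      have e1 : c * (Real.log z) ^ 3 / (q.totient : ℝ) =
          2 * ((c / 2 / (q.totient : ℝ)) * (Real.log z) ^ 3) := by
        field_simp
      have e2 : c / 2 * (Real.log z) ^ 3 / (q.totient : ℝ) =
          (c / 2 / (q.totient : ℝ)) * (Real.log z) ^ 3 := by
        field_simp
      rw [e1, e2] at h5
      nlinarith
    have h7 : c / 2 / (q.totient : ℝ) ≤ (K : ℝ) ^ 3 * S :=
      le_of_mul_le_mul_right h6 hL3
    have hK3 : (0 : ℝ) < (K : ℝ) ^ 3 := by positivity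
    have e3 : c / (2 * (K : ℝ) ^ 3) / (q.totient : ℝ) =
        (c / 2 / (q.totient : ℝ)) / (K : ℝ) ^ 3 := by
      field_simp
    rw [e3, div_le_iff₀ hK3]
    linarith
  constructor
  · by_cases hex : ∃ (q0 : ℕ) (χ0 : DirichletCharacter ℂ q0), 1 ≤ q0 ∧ q0 ^ 16 ≤ z ∧ χ0 ≠ 1 ∧
      χ0 ^ 2 = 1 ∧ ‖Lj z χ0 0 s‖ < lam
    · obtain ⟨q0, χ0, hq0, hq0z, hχ1, hχ2, hL0⟩ := hex
      have : NeZero q0 := ⟨by omega⟩
      refine ⟨χ0.conductor, fun h => hχ1 (χ0.eq_one_iff_conductor_eq_one.2 h),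
        Nat.pos_of_ne_zero χ0.conductor_ne_zero, ?_⟩
      intro q b hq hqz hb hfq
      have : NeZero q := ⟨by omega⟩
      have hq8 : q ^ 8 ≤ z := (Nat.pow_le_pow_right hq (by norm_num)).trans hqz
      apply hgood q b hq8 hb
      intro χ hχ hχ'
      by_contra hcon
      push Not at hcon
      apply hfq
      have hQ0 : 0 < Nat.lcm q0 q := Nat.lcm_pos (by omega) (by omega)
      have : NeZero (Nat.lcm q0 q) := ⟨hQ0.ne'⟩
      have hQle : Nat.lcm q0 q ≤ q0 * q := Nat.le_of_dvd (by positivity) (Nat.lcm_dvd_mul _ _)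
      have hQ8 : (Nat.lcm q0 q) ^ 8 ≤ z := by
        refine (Nat.pow_le_pow_left hQle 8).trans ?_
        have h1 : ((q0 * q) ^ 8) ^ 2 ≤ z ^ 2 := by
          calc ((q0 * q) ^ 8) ^ 2 = q0 ^ 16 * q ^ 16 := by ring
            _ ≤ z * z := Nat.mul_le_mul hq0z hqz
            _ = z ^ 2 := by ring
        exact (Nat.pow_le_pow_iff_left (by norm_num)).1 h1
      have hQz : Nat.lcm q0 q ≤ z := (Nat.le_self_pow (by norm_num) _).trans hQ8
      have hd0 : q0 ∣ Nat.lcm q0 q := Nat.dvd_lcm_left _ _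
      have hd1 : q ∣ Nat.lcm q0 q := Nat.dvd_lcm_right _ _
      have e0 := Lj_changeLevel hQ0 hQz hd0 χ0 0 s
      have e1 := Lj_changeLevel hQ0 hQz hd1 χ 0 s
      by_cases heq : DirichletCharacter.changeLevel hd0 χ0 = DirichletCharacter.changeLevel hd1 χ
      · rw [← DirichletCharacter.conductor_changeLevel χ0 hd0, heq,
          DirichletCharacter.conductor_changeLevel]
        exact χ.conductor_dvd_level
      · exfalso
        refine hrep z (Nat.lcm q0 q) hz3 hQ8 (DirichletCharacter.changeLevel hd0 χ0)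
          (DirichletCharacter.changeLevel hd1 χ) ?_ ?_ ?_ ?_ heq ?_ ?_
        · rw [Ne, DirichletCharacter.changeLevel_eq_one_iff]
          exact hχ1
        · rw [← map_pow, hχ2, map_one]
        · rw [Ne, DirichletCharacter.changeLevel_eq_one_iff]
          exact hχ
        · rw [← map_pow, hχ', map_one]
        · rw [← hs, e0]; exact hL0
        · rw [← hs, e1]; exact hcon
    · push Not at hex
      refine ⟨2, by norm_num, by norm_num, ?_⟩
      intro q b hq hqz hb _
      have : NeZero q := ⟨by omega⟩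
      have hq8 : q ^ 8 ≤ z := (Nat.pow_le_pow_right hq (by norm_num)).trans hqz
      exact hgood q b hq8 hb (fun χ h1 h2 => hex q χ hq hqz h1 h2)
  · intro q b hq hqz hb
    have hphi : (0 : ℝ) < (q.totient : ℝ) := by
      exact_mod_cast Nat.totient_pos.2 hq
    have hsl1 : s * Real.log z ≤ 1 := by
      rw [hsl, div_le_one (by linarith)]
      exact hA
    have hb0 := hB0 z q b s hz3 hq hqz hb hs0 hsl1
    -- compare with the sum `Bj`
    have hsumm := (Pool.Agent.W933.MHSum.sum_ z q b 0 s hs0).2.1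
    have h1 : ∑ p ∈ (Ioc z (z ^ K)).filter (fun p => p.Prime ∧ p ≡ b [MOD q]),
        bj z q b 0 s p ≤ Bj z q b 0 s := by
      unfold Bj
      apply Summable.sum_le_tsum _ _ hsumm
      intro n _
      unfold bj
      split_ifs
      · apply mul_nonneg ArithmeticFunction.vonMangoldt_nonneg
        positivity
      · exact le_rfl
    have h2 : ∀ p ∈ (Ioc z (z ^ K)).filter (fun p => p.Prime ∧ p ≡ b [MOD q]),
        Real.log z * Real.exp (-(K : ℝ)) * (1 / (p : ℝ)) ≤ bj z q b 0 s p := by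
      intro p hp
      rw [mem_filter, mem_Ioc] at hp
      obtain ⟨⟨hp1, hp2⟩, hpp, hpb⟩ := hp
      have hR : Rgh z p := by
        intro l hl hlz hlp
        have := (Nat.prime_dvd_prime_iff_eq hl hpp).1 hlp
        omega
      have hp0 : (0 : ℝ) < p := by exact_mod_cast hpp.pos
      have hz0 : (0 : ℝ) < z := by exact_mod_cast (by omega : 0 < z)
      unfold bj
      rw [if_pos ⟨hR, hpb⟩, ArithmeticFunction.vonMangoldt_apply_prime hpp, pow_zero]
      have hlogp : Real.log z ≤ Real.log p :=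
        Real.log_le_log hz0 (by exact_mod_cast hp1.le)
      have hlogp2 : Real.log p ≤ K * Real.log z := by
        have : Real.log p ≤ Real.log ((z : ℝ) ^ K) :=
          Real.log_le_log hp0 (by exact_mod_cast hp2)
        rwa [Real.log_pow] at this
      have h3 : (p : ℝ) ^ (1 + s) = p * (p : ℝ) ^ s := by
        rw [Real.rpow_add hp0, Real.rpow_one]
      have h4 : (p : ℝ) ^ s ≤ Real.exp K := by
        rw [Real.rpow_def_of_pos hp0]
        apply Real.exp_le_exp.2
        calc Real.log p * s ≤ (K * Real.log z) * s := mul_le_mul_of_nonneg_right hlogp2 hs0.le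
          _ = K * (s * Real.log z) := by ring
          _ ≤ K * 1 := mul_le_mul_of_nonneg_left hsl1 hK0.le
          _ = K := mul_one _
      rw [h3]
      have h5 : (0 : ℝ) < (p : ℝ) ^ s := by positivity
      have h6 : Real.exp (-(K : ℝ)) ≤ 1 / (p : ℝ) ^ s := by
        rw [Real.exp_neg, ← one_div]
        exact one_div_le_one_div_of_le h5 h4
      have e : Real.log p * (1 / (p * (p : ℝ) ^ s)) = Real.log p * (1 / (p : ℝ) ^ s) * (1 / p) := by
        field_simp
      rw [e]
      apply mul_le_mul_of_nonneg_right _ (by positivity)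
      exact mul_le_mul hlogp h6 (by positivity) (by linarith)
    have h3 : Real.log z * Real.exp (-(K : ℝ)) * SP K z q b ≤ Bj z q b 0 s := by
      unfold SP
      rw [Finset.mul_sum]
      exact (Finset.sum_le_sum h2).trans h1
    have h4 : Real.log z * Real.exp (-(K : ℝ)) * SP K z q b ≤ C0 / (q.totient * s) := h3.trans hb0
    have hl0 : (0 : ℝ) < Real.log z := by linarith
    have h5 : SP K z q b = (Real.log z * Real.exp (-(K : ℝ)) * SP K z q b) *
        (Real.exp K / Real.log z) := by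
      have : Real.exp (-(K : ℝ)) * Real.exp K = 1 := by
        rw [← Real.exp_add]; simp
      field_simp
      linear_combination (-SP K z q b) * this
    rw [h5]
    refine (mul_le_mul_of_nonneg_right h4 (by positivity)).trans (le_of_eq ?_)
    rw [hs]
    field_simp

end Pool.Agent.TH909
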