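import Pool.Agent.TH909.J1414d

/-!
# TW10 (project TW of helper716): completeness of the quadratic test
-/

set_option autoImplicit false

namespace Pool.Agent.TH909.J1414

open Pool.Agent.TH716.TW Pool.Agent.W313.BMX

theorem Sp_of_rat (p : ℕ) [Fact p.Prime] {a b : ℤ} (h : Splits (a : ℚ) (b : ℚ)) : Sp p a b := by
  have h1 := splits_cast (F := ℚ_[p]) h
  rw [Rat.cast_intCast, Rat.cast_intCast] at h1
  exact h1

theorem result : S_T5c := by
  classical
  intro N F hN hF h1 h5
  by_cases hd : F ^ 2 + N = 0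
  · exact ⟨0, 0, 0, by rw [hd]; ring⟩
  obtain ⟨n, c, hc, hn, hnN⟩ := exists_int N hN
  obtain ⟨δ, c', hc', hδ, hδd⟩ := exists_int (F ^ 2 + N) hd
  set T : Finset ℕ := δ.natAbs.primeFactors.filter (fun p => p ≠ 2 ∧ p ≠ 5) with hT
  set e : ℕ → Bool := fun p => decide (¬ ((p % 5 = 2 ∨ p % 5 = 3) ∧ Even (padicValRat p N))) with he
  set c8 : ℕ := if Even (padicValRat 2 N) then 5 else 1 with hc8
  obtain ⟨l, hl, hlB, hl8, hl5, hlT⟩ := choose_prime T (by
    intro p hp
    rw [hT, Finset.mem_filter] at hp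
    exact ⟨Nat.prime_of_mem_primeFactors hp.1, hp.2⟩) e c8 (by
      rw [hc8]; split_ifs
      · exact Or.inr rfl
      · exact Or.inl rfl) (5 + n.natAbs + δ.natAbs)
  have hl8' : l % 8 = 1 ∨ l % 8 = 5 := by
    rw [hl8, hc8]; split_ifs
    · exact Or.inr rfl
    · exact Or.inl rfl
  -- the key equivalence
  have hodd : ∀ (p : ℕ) [Fact p.Prime], (p % 5 = 2 ∨ p % 5 = 3) →
      ¬ Even (padicValRat p N) → ¬ Even (padicValRat p (F ^ 2 + N)) := by
    intro p hp hp5 hev
    have := h1 p hp.out hp5 (Int.not_even_iff_odd.1 hev)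
    rw [val_add hN hF hd this]
    exact hev
  have hmemT : ∀ (p : ℕ) [Fact p.Prime], p ≠ 2 → p ≠ 5 → ¬ Even (padicValRat p (δ : ℚ)) → p ∈ T := by
    intro p hp hp2 hp5 hev
    rw [hT, Finset.mem_filter]
    refine ⟨?_, hp2, hp5⟩
    rw [Nat.mem_primeFactors]
    refine ⟨hp.out, ?_, by simpa using hδ⟩
    by_contra hnd
    apply hev
    rw [padicValRat.of_int, padicValInt.eq_zero_of_not_dvd]
    · exact ⟨0, rfl⟩
    · intro hh
      exact hnd (Int.natCast_dvd.1 hh)
  have key : ∀ (p : ℕ) [Fact p.Prime], p ≠ l → (Sp p δ l ↔ (Sp p 5 n ↔ Sp p δ 5)) := by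
    intro p hp hpl
    have hndl := not_dvd_of_ne hp.out hl hpl
    have ev1 := even_val p hN hc hnN
    have ev2 := even_val p hd hc' hδd
    have hx := hodd p
    by_cases hp2 : p = 2
    · subst hp2
      refine key_two hn hδ (by omega) ?_ ?_
      · rw [ev1]
        rw [hc8] at hl8
        by_cases hev : Even (padicValRat 2 N)
        · rw [if_pos hev] at hl8
          constructor
          · intro h; omega
          · intro h; exact absurd hev h
        · rw [if_neg hev] at hl8
          constructor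
          · intro _; exact hev
          · intro _; omega
      · rw [ev1, ev2]
        exact hx (by norm_num)
    · by_cases hp5 : p = 5
      · subst hp5
        exact key_five hN hF hc hc' hδ hndl (leg_five_l hl5) h5 hnN hδd
      · refine key_odd p hp2 hp5 hn hδ hndl (e p = true) ?_ ?_ ?_
        · rw [ev1, he]
          simp only [decide_eq_true_eq]
        · rw [ev1, ev2]
          exact hx
        · intro hev
          rw [hlT p (hmemT p hp2 hp5 hev)]
          by_cases hep : e p = true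
          · rw [if_pos hep]
            exact ⟨fun _ => hep, fun _ => rfl⟩
          · rw [if_neg hep]
            exact ⟨fun h => absurd h (by norm_num), fun h => absurd h hep⟩
  -- the conic over the rational numbers
  have hsdn : Splits (δ : ℚ) ((-n : ℤ) : ℚ) := by
    have h2 : Splits (F ^ 2 + N) (-N) := ⟨1, 1, F, Or.inl one_ne_zero, by ring⟩
    have e1 : ((-n : ℤ) : ℚ) = (-N) * c ^ 2 := by push_cast; rw [hnN]; ring
    rw [hδd, splits_mul_sq hc', splits_comm, e1, splits_mul_sq hc, splits_comm]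
    exact h2
  have hl0 : (l : ℤ) ≠ 0 := by exact_mod_cast hl.ne_zero
  have ha0 : 5 * δ ≠ 0 := mul_ne_zero (by norm_num) hδ
  have hb0 : -5 * (n * (l : ℤ)) ≠ 0 := mul_ne_zero (by norm_num) (mul_ne_zero hn hl0)
  have hloc : ∀ (p : ℕ) [Fact p.Prime], p ≠ l →
      Splits ((5 * δ : ℤ) : ℚ_[p]) ((-5 * (n * (l : ℤ)) : ℤ) : ℚ_[p]) := by
    intro p hp hpl
    have h6 : Sp p δ (-n) := Sp_of_rat p hsdn
    exact local_main p n δ l hn hδ hl0 (key p hpl) (local_five p l hl hpl hl8' hl5) h6
  have hre : Splits ((5 * δ : ℤ) : ℝ) ((-5 * (n * (l : ℤ)) : ℤ) : ℝ) := by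
    by_contra h
    obtain ⟨h2, h3⟩ := (Pool.Agent.W928.BMX.splits_real _ _ ha0 hb0).1 h
    have hlp : (0 : ℤ) < l := by exact_mod_cast hl.pos
    have h4 : δ < 0 := by linarith
    have h5' : 0 < n := by
      by_contra hh
      have : n * (l : ℤ) ≤ 0 := mul_nonpos_of_nonpos_of_nonneg (not_lt.1 hh) hlp.le
      linarith
    have h6 : (0 : ℚ) < N := by
      have : (0 : ℚ) < N * c ^ 2 := by rw [← hnN]; exact_mod_cast h5'
      exact pos_of_mul_pos_left this (sq_nonneg c)
    have h7 : (δ : ℚ) < 0 := by exact_mod_cast h4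
    rw [hδd] at h7
    have h8 : 0 ≤ (F ^ 2 + N) * c' ^ 2 := by positivity
    linarith
  have := Fact.mk hl
  have hlloc := Pool.Agent.W351.HB.PF.pf_ Pool.Agent.W215.HB.bilo_ Pool.Agent.W864.HBm.bilt_
    (5 * δ) (-5 * (n * (l : ℤ))) ha0 hb0 l hre hloc
  obtain ⟨x, y, z, h0, hz⟩ := Pool.Agent.W174.HB.hm_ (5 * δ) (-5 * (n * (l : ℤ))) ha0 hb0 hre (by
    intro p hp
    by_cases h : p = l
    · subst h
      exact hlloc
    · exact hloc p h)
  push_cast at hz
  have hlq : (l : ℚ) ≠ 0 := by exact_mod_cast hl.ne_zero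
  have hnq : (n : ℚ) ≠ 0 := by exact_mod_cast hn
  have hx : x ≠ 0 := by
    rintro rfl
    have h2 : z ^ 2 = -5 * (n * l) * y ^ 2 := by linarith
    have hy : y ≠ 0 := by
      rintro rfl
      have hz0 : z = 0 := by
        have : z ^ 2 = 0 := by linarith
        exact pow_eq_zero_iff (two_ne_zero) |>.1 this
      simp [hz0] at h0
    have hz0 : z ≠ 0 := by
      rintro rfl
      have : (-5 : ℚ) * (n * l) * y ^ 2 ≠ 0 :=
        mul_ne_zero (mul_ne_zero (by norm_num) (mul_ne_zero hnq hlq)) (pow_ne_zero _ hy)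
      apply this
      rw [← h2]; ring
    have h3 := congrArg (padicValRat l) h2
    rw [padicValRat.mul (mul_ne_zero (by norm_num) (mul_ne_zero hnq hlq)) (pow_ne_zero _ hy),
      padicValRat.mul (by norm_num) (mul_ne_zero hnq hlq), padicValRat.mul hnq hlq,
      padicValRat.pow, padicValRat.pow, padicValRat.self hl.one_lt] at h3
    have h4 : padicValRat l (-5 : ℚ) = 0 := by
      have : (-5 : ℚ) = ((-5 : ℤ) : ℚ) := by norm_num
      rw [this, padicValRat.of_int, padicValInt.eq_zero_of_not_dvd]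
      · rfl
      · intro hh
        have h6 := Int.natCast_dvd.1 hh
        have h7 := Nat.le_of_dvd (by norm_num) h6
        simp at h7
        omega
    have h5' : padicValRat l (n : ℚ) = 0 := by
      rw [padicValRat.of_int, padicValInt.eq_zero_of_not_dvd]
      · rfl
      · intro hh
        have h6 := Int.natCast_dvd.1 hh
        have h7 := Nat.le_of_dvd (Int.natAbs_pos.2 hn) h6
        omega
    rw [h4, h5'] at h3
    push_cast at h3
    omega
  obtain ⟨A, B, hAB⟩ := norm_l l hl hl8' hl5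
  have hX : c' * x ≠ 0 := mul_ne_zero hc' hx
  refine ⟨z / (5 * (c' * x)), A * (c * y) / (c' * x), B * (c * y) / (c' * x), ?_⟩
  have hz2 : z ^ 2 = 5 * (F ^ 2 + N) * (c' * x) ^ 2 - 5 * N * (A ^ 2 - 5 * B ^ 2) * (c * y) ^ 2 := by
    rw [hz, hδd, hnN, hAB]; ring
  have e1 : 5 * (z / (5 * (c' * x))) ^ 2 = z ^ 2 / (5 * (c' * x) ^ 2) := by
    field_simp
  rw [e1, hz2]
  field_simp
  ring

end Pool.Agent.TH909.J1414
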