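import Pool.Agent.TH716.TW.Defs
import Pool.Agent.W174.HB.HM
import Pool.Agent.W351.HB.PF
import Pool.Agent.W215.HB.Bilo
import Pool.Agent.W864.HB.Bilt
import Pool.Agent.W975.BMX.Two

/-!
# TW10 (project TW of helper716): completeness of the quadratic test, local part
-/

set_option autoImplicit false

namespace Pool.Agent.TH909.J1414

open Pool.Agent.TH716.TW Pool.Agent.W313.BMX

/-- an integer in the square class of a rational number -/
theorem exists_int (r : ℚ) (hr : r ≠ 0) : ∃ (n : ℤ) (c : ℚ), c ≠ 0 ∧ n ≠ 0 ∧ (n : ℚ) = r * c ^ 2 := by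
  refine ⟨r.num * r.den, r.den, by exact_mod_cast r.den_nz, ?_, ?_⟩
  · exact mul_ne_zero (Rat.num_ne_zero.2 hr) (by exact_mod_cast r.den_nz)
  · have h : (r.den : ℚ) ≠ 0 := by exact_mod_cast r.den_nz
    have h1 : r = r.num / r.den := (Rat.num_div_den r).symm
    push_cast
    have h2 : (r.num : ℚ) = r * r.den := by
      rw [eq_comm]
      exact Rat.mul_den_eq_num r
    rw [h2]
    ring

theorem even_val (p : ℕ) [Fact p.Prime] {r c : ℚ} {n : ℤ} (hr : r ≠ 0) (hc : c ≠ 0)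
    (h : (n : ℚ) = r * c ^ 2) : Even (padicValRat p (n : ℚ)) ↔ Even (padicValRat p r) := by
  rw [h, padicValRat.mul hr (pow_ne_zero _ hc), padicValRat.pow]
  constructor
  · rintro ⟨k, hk⟩
    exact ⟨k - padicValRat p c, by push_cast at hk; omega⟩
  · rintro ⟨k, hk⟩
    exact ⟨k + padicValRat p c, by push_cast; omega⟩

/-- the symbol of an integer and a unit at an odd prime -/
theorem odd_symbol (p : ℕ) [Fact p.Prime] (hp2 : p ≠ 2) {a b : ℤ} (ha : a ≠ 0)
    (hb : ¬ (p : ℤ) ∣ b) : Splits (a : ℚ_[p]) (b : ℚ_[p]) ↔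
      (Even (padicValRat p (a : ℚ)) ∨ legendreSym p b = 1) := by
  obtain ⟨t, m, hm, rfl⟩ := Pool.Agent.W215.HB.rep (p := p) ha
  have hp0 : (p : ℚ) ≠ 0 := by exact_mod_cast (Fact.out : p.Prime).ne_zero
  have hm0 : (m : ℚ) ≠ 0 := by
    have : m ≠ 0 := by rintro rfl; exact hm (dvd_zero _)
    exact_mod_cast this
  have h1 := Pool.Agent.W215.HB.case_gen hp2 hm hb t 0
  rw [pow_zero, one_mul] at h1
  rw [h1]
  have h2 : Pool.Agent.W215.HB.sg p t m 0 b = legendreSym p b ^ t := by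
    unfold Pool.Agent.W215.HB.sg
    simp
  rw [h2]
  have h3 : padicValRat p (((p : ℤ) ^ t * m : ℤ) : ℚ) = t := by
    push_cast
    rw [padicValRat.mul (pow_ne_zero _ hp0) hm0, padicValRat.pow,
      padicValRat.self (Fact.out : p.Prime).one_lt]
    have h4 : padicValRat p (m : ℚ) = 0 := by
      rw [padicValRat.of_int, padicValInt.eq_zero_of_not_dvd hm]
      rfl
    rw [h4]
    ring
  rw [h3, Int.even_coe_nat]
  rcases Pool.Agent.W215.HB.leg_cases hb with h | h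
  · rw [h]
    simp
  · rw [h]
    rcases Nat.even_or_odd t with ht | ht
    · rw [ht.neg_one_pow]
      simp [ht]
    · rw [ht.neg_one_pow]
      have : ¬ Even t := Nat.not_even_iff_odd.2 ht
      simp [this]

/-- the symbol of an integer and a number `1` modulo `4` at `2` -/
theorem two_symbol {a e : ℤ} (ha : a ≠ 0) (he : e % 4 = 1) :
    Splits (a : ℚ_[2]) (e : ℚ_[2]) ↔ (Even (padicValRat 2 (a : ℚ)) ∨ e % 8 = 1) := by
  obtain ⟨t, m, hm, rfl⟩ := Pool.Agent.W215.HB.rep (p := 2) ha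
  have hm2 : m % 2 = 1 := by
    have : ¬ (2 : ℤ) ∣ m := by exact_mod_cast hm
    omega
  have hm0 : (m : ℚ) ≠ 0 := by
    have : m ≠ 0 := by rintro rfl; exact hm (dvd_zero _)
    exact_mod_cast this
  have h3 : padicValRat 2 ((((2 : ℕ) : ℤ) ^ t * m : ℤ) : ℚ) = t := by
    push_cast
    rw [padicValRat.mul (pow_ne_zero _ two_ne_zero) hm0, padicValRat.pow]
    have h5 : padicValRat 2 (2 : ℚ) = 1 := by
      have := padicValRat.self (p := 2) (by norm_num)
      exact_mod_cast this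
    have h4 : padicValRat 2 (m : ℚ) = 0 := by
      rw [padicValRat.of_int, padicValInt.eq_zero_of_not_dvd hm]
      rfl
    rw [h4, h5]
    ring
  rw [h3, Int.even_coe_nat]
  have h20 : (2 : ℚ_[2]) ≠ 0 := two_ne_zero
  rcases Nat.even_or_odd' t with ⟨k, rfl | rfl⟩
  · have h1 : (((((2 : ℕ) : ℤ) ^ (2 * k) * m : ℤ)) : ℚ_[2]) = (m : ℚ_[2]) * ((2 : ℚ_[2]) ^ k) ^ 2 := by
      push_cast; ring
    rw [h1, splits_mul_sq (pow_ne_zero _ h20)]
    have := Pool.Agent.W975.BMX.two2 m e hm2 he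
    simp [this]
  · have h1 : (((((2 : ℕ) : ℤ) ^ (2 * k + 1) * m : ℤ)) : ℚ_[2]) =
        ((2 * m : ℤ) : ℚ_[2]) * ((2 : ℚ_[2]) ^ k) ^ 2 := by
      push_cast; ring
    rw [h1, splits_mul_sq (pow_ne_zero _ h20)]
    rw [Pool.Agent.W975.BMX.two3 m e hm2 he]
    have : ¬ Even (2 * k + 1) := by
      rw [Nat.not_even_iff_odd]
      exact ⟨k, rfl⟩
    simp [this]

/-- bilinearity at all primes -/
theorem bil (p : ℕ) [hp : Fact p.Prime] (a b c : ℤ) (ha : a ≠ 0) (hb : b ≠ 0) (hc : c ≠ 0) :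
    (Splits (a : ℚ_[p]) ((b * c : ℤ) : ℚ_[p]) ↔
      (Splits (a : ℚ_[p]) (b : ℚ_[p]) ↔ Splits (a : ℚ_[p]) (c : ℚ_[p]))) :=
  Pool.Agent.W351.HB.PF.bil Pool.Agent.W215.HB.bilo_ Pool.Agent.W864.HBm.bilt_ ⟨p, hp.out⟩ a b c
    ha hb hc

theorem splits_cast {F : Type} [Field F] [CharZero F] {a b : ℚ} (h : Splits a b) :
    Splits (a : F) (b : F) := by
  obtain ⟨x, y, z, h0, h1⟩ := h
  refine ⟨x, y, z, ?_, by exact_mod_cast h1⟩
  rcases h0 with h | h | h
  · exact Or.inl (by exact_mod_cast h)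
  · exact Or.inr (Or.inl (by exact_mod_cast h))
  · exact Or.inr (Or.inr (by exact_mod_cast h))

instance fact_five : Fact (Nat.Prime 5) := ⟨by norm_num⟩

theorem leg_aux (r : ℕ) (hr : r < 5) (hr0 : r ≠ 0) :
    (legendreSym 5 (r : ℤ) = -1 ↔ (r = 2 ∨ r = 3)) := by
  rw [legendreSym.eq_neg_one_iff]
  have : r = 1 ∨ r = 2 ∨ r = 3 ∨ r = 4 := by omega
  rcases this with rfl | rfl | rfl | rfl
  · exact ⟨fun h => absurd (⟨1, by decide⟩ : IsSquare (((1 : ℕ) : ℤ) : ZMod 5)) h, fun h => by omega⟩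
  · refine ⟨fun _ => Or.inl rfl, fun _ => ?_⟩
    rintro ⟨x, hx⟩
    revert hx
    revert x
    decide
  · refine ⟨fun _ => Or.inr rfl, fun _ => ?_⟩
    rintro ⟨x, hx⟩
    revert hx
    revert x
    decide
  · exact ⟨fun h => absurd (⟨2, by decide⟩ : IsSquare (((4 : ℕ) : ℤ) : ZMod 5)) h, fun h => by omega⟩

/-- the Legendre symbol of `5` -/
theorem leg_five (p : ℕ) [Fact p.Prime] (hp2 : p ≠ 2) (hp5 : p ≠ 5) :
    legendreSym p 5 = -1 ↔ (p % 5 = 2 ∨ p % 5 = 3) := by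
  have h := legendreSym.quadratic_reciprocity_one_mod_four (p := 5) (q := p) (by norm_num) hp2
  have h' : legendreSym p ((5 : ℕ) : ℤ) = legendreSym 5 (p : ℤ) := h
  rw [show (5 : ℤ) = ((5 : ℕ) : ℤ) by norm_num, h', legendreSym.mod]
  have hp : p % 5 ≠ 0 := by
    intro h0
    have := (Nat.prime_dvd_prime_iff_eq (by norm_num : Nat.Prime 5) (Fact.out : p.Prime)).1
      (Nat.dvd_of_mod_eq_zero h0)
    exact hp5 this.symm
  have h1 : ((p : ℤ) % ((5 : ℕ) : ℤ)) = ((p % 5 : ℕ) : ℤ) := by push_cast; rfl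
  rw [h1]
  exact leg_aux _ (Nat.mod_lt _ (by norm_num)) hp

end Pool.Agent.TH909.J1414
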