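import Pool.Agent.TH909.J1414a

/-!
# TW10 (project TW of helper716): choice of the auxiliary prime
-/

set_option autoImplicit false

namespace Pool.Agent.TH909.J1414

theorem exists_res (p : ℕ) [hp : Fact p.Prime] (hp2 : p ≠ 2) (e : Bool) :
    ∃ r : ℕ, ¬ p ∣ r ∧ legendreSym p (r : ℤ) = if e then 1 else -1 := by
  cases e
  · obtain ⟨a, ha⟩ := FiniteField.exists_nonsquare (F := ZMod p)
      (by rw [ZMod.ringChar_zmod_n]; exact hp2)
    refine ⟨a.val, ?_, ?_⟩
    · intro h
      have h1 : ((a.val : ℕ) : ZMod p) = 0 := (ZMod.natCast_eq_zero_iff _ _).2 h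
      rw [ZMod.natCast_zmod_val] at h1
      exact ha (h1 ▸ ⟨0, by simp⟩)
    · simp only [Bool.false_eq_true, if_false]
      rw [legendreSym.eq_neg_one_iff]
      intro h
      apply ha
      have h1 : (((a.val : ℕ) : ℤ) : ZMod p) = a := by
        rw [Int.cast_natCast, ZMod.natCast_zmod_val]
      rwa [h1] at h
  · refine ⟨1, ?_, ?_⟩
    · intro h
      exact hp.out.one_lt.ne' (Nat.dvd_one.1 h)
    · simp

/-- the auxiliary prime -/
theorem choose_prime (T : Finset ℕ) (hT : ∀ p ∈ T, p.Prime ∧ p ≠ 2 ∧ p ≠ 5) (e : ℕ → Bool)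
    (c8 : ℕ) (h8 : c8 = 1 ∨ c8 = 5) (B : ℕ) : ∃ l : ℕ, l.Prime ∧ B < l ∧ l % 8 = c8 ∧ l % 5 = 1 ∧
      ∀ (p : ℕ) [Fact p.Prime], p ∈ T → legendreSym p (l : ℤ) = if e p then 1 else -1 := by
  classical
  have hex : ∀ p : ℕ, p ∈ T → ∃ r : ℕ, ¬ p ∣ r ∧ ∀ [Fact p.Prime],
      legendreSym p (r : ℤ) = if e p then 1 else -1 := by
    intro p hp
    have := Fact.mk (hT p hp).1
    obtain ⟨r, h1, h2⟩ := exists_res p (hT p hp).2.1 (e p)
    exact ⟨r, h1, fun {_} => h2⟩
  choose! f hf1 hf2 using hex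
  set a : ℕ → ℕ := fun i => if i = 8 then c8 else if i = 5 then 1 else f i with ha
  set t : Finset ℕ := insert 8 (insert 5 T) with ht
  have h8T : ∀ p ∈ T, p ≠ 8 := by
    rintro p hp rfl
    exact absurd (hT 8 hp).1 (by norm_num)
  have hs : ∀ i ∈ t, (fun i => i : ℕ → ℕ) i ≠ 0 := by
    intro i hi
    simp only [ht, Finset.mem_insert] at hi
    rcases hi with rfl | rfl | hi
    · norm_num
    · norm_num
    · exact (hT i hi).1.ne_zero
  have hco : ∀ i ∈ t, ∀ j ∈ t, i ≠ j → Nat.Coprime i j := by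
    intro i hi j hj hij
    simp only [ht, Finset.mem_insert] at hi hj
    have h2c : ∀ p ∈ T, Nat.Coprime 8 p := by
      intro p hp
      have h2p : Nat.Coprime 2 p := (Nat.coprime_primes Nat.prime_two (hT p hp).1).2 (hT p hp).2.1.symm
      have := Nat.Coprime.pow_left 3 h2p
      simpa using this
    have h5c : ∀ p ∈ T, Nat.Coprime 5 p := fun p hp =>
      (Nat.coprime_primes (by norm_num) (hT p hp).1).2 (hT p hp).2.2.symm
    rcases hi with rfl | rfl | hi <;> rcases hj with rfl | rfl | hj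
    · exact absurd rfl hij
    · norm_num
    · exact h2c j hj
    · norm_num
    · exact absurd rfl hij
    · exact h5c j hj
    · exact (h2c i hi).symm
    · exact (h5c i hi).symm
    · exact (Nat.coprime_primes (hT i hi).1 (hT j hj).1).2 hij
  obtain ⟨k, hk⟩ := Nat.chineseRemainderOfFinset a (fun i => i) t hs
    (fun i hi j hj hij => hco i hi j hj hij)
  have ka : ∀ i ∈ t, k ≡ a i [MOD i] := hk
  have hkc : ∀ i ∈ t, Nat.Coprime k i := by
    intro i hi
    have h1 := ka i hi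
    have h2 : Nat.gcd k i = Nat.gcd (a i) i := by
      have := h1.gcd_eq
      simpa using this
    rw [Nat.coprime_iff_gcd_eq_one, h2]
    have hi' := hi
    simp only [ht, Finset.mem_insert] at hi'
    rcases hi' with rfl | rfl | hi'
    · rcases h8 with h | h <;> simp [ha, h]
    · simp [ha]
    · have h3 : a i = f i := by
        simp [ha, h8T i hi', (hT i hi').2.2]
      rw [h3]
      exact ((hT i hi').1.coprime_iff_not_dvd.2 (hf1 i hi')).symm
  have hM : (∏ i ∈ t, i) ≠ 0 := Finset.prod_ne_zero_iff.2 hs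
  have hkM : Nat.Coprime k (∏ i ∈ t, i) := Nat.Coprime.prod_right hkc
  obtain ⟨l, hl1, hl2, hl3⟩ := Nat.forall_exists_prime_gt_and_modEq B hM hkM
  have hmod : ∀ i ∈ t, l ≡ a i [MOD i] := fun i hi =>
    (hl3.of_dvd (Finset.dvd_prod_of_mem _ hi)).trans (ka i hi)
  refine ⟨l, hl2, hl1, ?_, ?_, ?_⟩
  · have h1 := hmod 8 (by simp [ht])
    have h2 : a 8 = c8 := by simp [ha]
    rw [h2] at h1
    unfold Nat.ModEq at h1
    rcases h8 with h | h <;> rw [h] at h1 ⊢ <;> omega
  · have h1 := hmod 5 (by simp [ht])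
    have h2 : a 5 = 1 := by simp [ha]
    rw [h2] at h1
    unfold Nat.ModEq at h1
    omega
  · intro p hp hpT
    have h1 := hmod p (by simp [ht, hpT])
    have h2 : a p = f p := by simp [ha, h8T p hpT, (hT p hpT).2.2]
    rw [h2] at h1
    rw [← hf2 p hpT, legendreSym.mod p (l : ℤ), legendreSym.mod p (f p : ℤ)]
    congr 1
    unfold Nat.ModEq at h1
    exact_mod_cast h1

end Pool.Agent.TH909.J1414
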