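import Pool.Agent.TH909.J1414b

/-!
# TW10 (project TW of helper716): completeness of the quadratic test, local lemmas
-/

set_option autoImplicit false

namespace Pool.Agent.TH909.J1414

open Pool.Agent.TH716.TW Pool.Agent.W313.BMX

theorem not_dvd_of_ne {p l : ℕ} (hp : p.Prime) (hl : l.Prime) (h : p ≠ l) : ¬ (p : ℤ) ∣ (l : ℤ) := by
  intro h1
  exact h ((Nat.prime_dvd_prime_iff_eq hp hl).1 (by exact_mod_cast h1))

theorem leg_five_l {l : ℕ} (h5 : l % 5 = 1) : legendreSym 5 (l : ℤ) = 1 := by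
  rw [legendreSym.mod]
  have h1 : ((l : ℤ) % ((5 : ℕ) : ℤ)) = 1 := by
    have : ((l : ℤ) % ((5 : ℕ) : ℤ)) = ((l % 5 : ℕ) : ℤ) := by push_cast; rfl
    rw [this, h5]; rfl
  rw [h1]
  exact legendreSym.at_one 5

/-- `5` and the auxiliary prime -/
theorem local_five (p l : ℕ) [hp : Fact p.Prime] (hl : l.Prime) (hpl : p ≠ l)
    (h8 : l % 8 = 1 ∨ l % 8 = 5) (h5 : l % 5 = 1) :
    Splits ((5 : ℤ) : ℚ_[p]) ((l : ℤ) : ℚ_[p]) := by
  by_cases hp2 : p = 2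
  · subst hp2
    exact Pool.Agent.W975.BMX.two2 5 (l : ℤ) (by norm_num) (by omega)
  · by_cases hp5 : p = 5
    · subst hp5
      exact (odd_symbol 5 hp2 (by norm_num) (not_dvd_of_ne hp.out hl hpl)).2
        (Or.inr (leg_five_l h5))
    · exact Pool.Agent.W335.BMX.odd2 p hp2 5 (l : ℤ)
        (by exact_mod_cast not_dvd_of_ne hp.out (by norm_num : Nat.Prime 5) hp5)
        (not_dvd_of_ne hp.out hl hpl)

theorem norm_l (l : ℕ) (hl : l.Prime) (h8 : l % 8 = 1 ∨ l % 8 = 5) (h5 : l % 5 = 1) :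
    ∃ A B : ℚ, (l : ℚ) = A ^ 2 - 5 * B ^ 2 := by
  have hl0 : (l : ℤ) ≠ 0 := by exact_mod_cast hl.ne_zero
  have hre : Splits ((5 : ℤ) : ℝ) ((l : ℤ) : ℝ) := by
    by_contra h
    have := (Pool.Agent.W928.BMX.splits_real 5 (l : ℤ) (by norm_num) hl0).1 h
    omega
  have := Fact.mk hl
  have hloc : ∀ (p : ℕ) [Fact p.Prime], p ≠ l → Splits ((5 : ℤ) : ℚ_[p]) ((l : ℤ) : ℚ_[p]) :=
    fun p hp hpl => local_five p l hl hpl h8 h5
  have hl' : Splits ((5 : ℤ) : ℚ_[l]) ((l : ℤ) : ℚ_[l]) :=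
    Pool.Agent.W351.HB.PF.pf_ Pool.Agent.W215.HB.bilo_ Pool.Agent.W864.HBm.bilt_ 5 (l : ℤ)
      (by norm_num) hl0 l hre hloc
  obtain ⟨x, y, z, h0, h1⟩ := Pool.Agent.W174.HB.hm_ 5 (l : ℤ) (by norm_num) hl0 hre (by
    intro p hp
    by_cases h : p = l
    · subst h
      exact hl'
    · exact hloc p h)
  push_cast at h1
  have hy : y ≠ 0 := by
    rintro rfl
    have h2 : z ^ 2 = 5 * x ^ 2 := by linarith
    have hx : x ≠ 0 := by
      rintro rfl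
      have hz : z = 0 := by
        have : z ^ 2 = 0 := by linarith
        exact pow_eq_zero_iff (two_ne_zero) |>.1 this
      simp [hz] at h0
    have h3 : (z / x) ^ 2 = 5 := by
      field_simp
      linarith
    have h4 : Irrational (Real.sqrt 5) := by
      have := Nat.Prime.irrational_sqrt (by norm_num : Nat.Prime 5)
      exact_mod_cast this
    apply h4
    refine ⟨|z / x|, ?_⟩
    have h5 : (((z / x : ℚ) : ℝ)) ^ 2 = 5 := by exact_mod_cast h3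
    rw [← h5, Real.sqrt_sq_eq_abs]
    push_cast
    rfl
  refine ⟨z / y, x / y, ?_⟩
  field_simp
  linarith

/-- propositional part -/
theorem abs_main {Pfin P5b Pdb P55 P5nl P5n P5l Pdn Pd5l Pd5 Pdl : Prop}
    (e1 : Pfin ↔ (P5b ↔ Pdb)) (e2 : P5b ↔ (P55 ↔ P5nl)) (e3 : P5nl ↔ (P5n ↔ P5l))
    (e4 : Pdb ↔ (Pdn ↔ Pd5l)) (e5 : Pd5l ↔ (Pd5 ↔ Pdl)) (h7 : P55) (h5l : P5l) (hdn : Pdn)
    (key : Pdl ↔ (P5n ↔ Pd5)) : Pfin := by tauto

/-- the symbol of integers -/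
def Sp (p : ℕ) [Fact p.Prime] (a b : ℤ) : Prop := Splits (a : ℚ_[p]) (b : ℚ_[p])

theorem Sp_comm (p : ℕ) [Fact p.Prime] (a b : ℤ) : Sp p a b ↔ Sp p b a := splits_comm

theorem Sp_bil (p : ℕ) [Fact p.Prime] (a b c : ℤ) (ha : a ≠ 0) (hb : b ≠ 0) (hc : c ≠ 0) :
    (Sp p a (b * c) ↔ (Sp p a b ↔ Sp p a c)) := bil p a b c ha hb hc

theorem Sp_bil' (p : ℕ) [Fact p.Prime] (a b c : ℤ) (ha : a ≠ 0) (hb : b ≠ 0) (hc : c ≠ 0) :
    (Sp p (b * c) a ↔ (Sp p b a ↔ Sp p c a)) := by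
  rw [Sp_comm p (b * c) a, Sp_comm p b a, Sp_comm p c a]
  exact Sp_bil p a b c ha hb hc

theorem Sp_55 (p : ℕ) [Fact p.Prime] : Sp p 5 (-5) := by
  refine ⟨1, 1, 0, Or.inl one_ne_zero, ?_⟩
  push_cast
  ring

/-- the symbol in terms of simpler symbols -/
theorem local_main (p : ℕ) [Fact p.Prime] (n δ : ℤ) (l : ℤ) (hn : n ≠ 0) (hδ : δ ≠ 0) (hl : l ≠ 0)
    (key : Sp p δ l ↔ (Sp p 5 n ↔ Sp p δ 5)) (h5l : Sp p 5 l) (hdn : Sp p δ (-n)) :
    Sp p (5 * δ) (-5 * (n * l)) := by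
  have hnl : n * l ≠ 0 := mul_ne_zero hn hl
  have hb : -5 * (n * l) ≠ 0 := mul_ne_zero (by norm_num) hnl
  have e1 := Sp_bil' p (-5 * (n * l)) 5 δ hb (by norm_num) hδ
  have e2 := Sp_bil p 5 (-5) (n * l) (by norm_num) (by norm_num) hnl
  have e3 := Sp_bil p 5 n l (by norm_num) hn hl
  have e4 := Sp_bil p δ (-n) (5 * l) hδ (neg_ne_zero.2 hn) (mul_ne_zero (by norm_num) hl)
  have e5 := Sp_bil p δ 5 l hδ (by norm_num) hl
  have e6 : (-n) * (5 * l) = -5 * (n * l) := by ring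
  rw [e6] at e4
  exact abs_main e1 e2 e3 e4 e5 (Sp_55 p) h5l hdn key

theorem val_add {p : ℕ} [Fact p.Prime] {N F : ℚ} (hN : N ≠ 0) (hF : F ≠ 0)
    (hd : F ^ 2 + N ≠ 0) (h : padicValRat p N < 2 * padicValRat p F) :
    padicValRat p (F ^ 2 + N) = padicValRat p N := by
  rw [add_comm] at hd ⊢
  apply padicValRat.add_eq_of_lt hd hN (pow_ne_zero _ hF)
  rw [padicValRat.pow]
  exact_mod_cast h

/-- at `5` -/
theorem sq_five {N F : ℚ} (hN : N ≠ 0) (hF : F ≠ 0)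
    (h : padicValRat 5 N < 2 * padicValRat 5 F) :
    ∃ r : ℚ_[5], r ≠ 0 ∧ ((F ^ 2 + N : ℚ) : ℚ_[5]) = (N : ℚ_[5]) * r ^ 2 := by
  set x : ℚ := F ^ 2 / N with hx
  have hx0 : x ≠ 0 := div_ne_zero (pow_ne_zero _ hF) hN
  have hv : 0 < padicValRat 5 x := by
    rw [hx, padicValRat.div (pow_ne_zero _ hF) hN, padicValRat.pow]
    push_cast
    linarith
  have hnorm : ‖(x : ℚ_[5])‖ < 1 := by
    rw [Padic.eq_padicNorm, padicNorm.eq_zpow_of_nonzero hx0]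
    have : ((5 : ℕ) : ℚ) ^ (-padicValRat 5 x) < 1 :=
      zpow_lt_one_of_neg₀ (by norm_num) (by linarith)
    exact_mod_cast this
  have h1 : ‖(1 : ℚ_[5]) + x‖ ≤ 1 := by
    refine (Padic.nonarchimedean _ _).trans ?_
    rw [norm_one]
    exact max_le le_rfl hnorm.le
  set u : ℤ_[5] := ⟨1 + x, h1⟩ with hu
  have hres : PadicInt.toZMod u = (1 : ZMod 5) ^ 2 := by
    have h2 : PadicInt.toZMod (u - 1) = 0 := by
      rw [Pool.Agent.W335.BMX.toZMod_eq_zero_iff, ← PadicInt.norm_lt_one_iff_dvd]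
      have : ((u - 1 : ℤ_[5]) : ℚ_[5]) = x := by
        rw [hu]; push_cast; ring
      rw [PadicInt.norm_def, this]
      exact hnorm
    rw [map_sub, map_one, sub_eq_zero] at h2
    rw [h2, one_pow]
  obtain ⟨s, hs⟩ := Pool.Agent.W335.BMX.isSquare_coe
    (Pool.Agent.W335.BMX.sq_of_residue (by norm_num) u 1 one_ne_zero hres)
  have hs' : (1 : ℚ_[5]) + x = s * s := hs
  have hN' : (N : ℚ_[5]) ≠ 0 := by exact_mod_cast hN
  have hne : (1 : ℚ_[5]) + x ≠ 0 := by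
    intro h0
    have h3 : (x : ℚ_[5]) = -1 := by linear_combination h0
    rw [h3, norm_neg, norm_one] at hnorm
    exact lt_irrefl _ hnorm
  refine ⟨s, ?_, ?_⟩
  · rintro rfl
    apply hne
    rw [hs']
    ring
  · have h4 : s ^ 2 = 1 + x := by rw [hs']; ring
    rw [h4, hx]
    push_cast
    field_simp
    ring

end Pool.Agent.TH909.J1414
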