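import Pool.Agent.TH909.J1414c

/-!
# TW10 (project TW of helper716): completeness of the quadratic test, the key equivalence
-/

set_option autoImplicit false

namespace Pool.Agent.TH909.J1414

open Pool.Agent.TH716.TW Pool.Agent.W313.BMX

theorem Sp_two {a e : ℤ} (ha : a ≠ 0) (he : e % 4 = 1) :
    Sp 2 a e ↔ (Even (padicValRat 2 (a : ℚ)) ∨ e % 8 = 1) := two_symbol ha he

theorem Sp_odd (p : ℕ) [Fact p.Prime] (hp2 : p ≠ 2) {a b : ℤ} (ha : a ≠ 0)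
    (hb : ¬ (p : ℤ) ∣ b) : Sp p a b ↔
      (Even (padicValRat p (a : ℚ)) ∨ legendreSym p b = 1) := odd_symbol p hp2 ha hb

theorem Sp_sq (p : ℕ) [Fact p.Prime] {a : ℤ} (b : ℤ) {r : ℚ} {c : ℚ_[p]} (hc : c ≠ 0)
    (h : (a : ℚ_[p]) = (r : ℚ_[p]) * c ^ 2) : Sp p a b ↔ Splits (r : ℚ_[p]) (b : ℚ_[p]) := by
  unfold Sp
  rw [h]
  exact splits_mul_sq hc

theorem abs_two {Sdl S5n Sd5 En Ed L1 F1 : Prop} (h1 : Sdl ↔ (Ed ∨ L1)) (h2 : S5n ↔ (En ∨ F1))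
    (h3 : Sd5 ↔ (Ed ∨ F1)) (hF : ¬ F1) (hL : L1 ↔ ¬ En) (hx : ¬ En → ¬ Ed) :
    Sdl ↔ (S5n ↔ Sd5) := by tauto

theorem key_two {n δ l : ℤ} (hn : n ≠ 0) (hδ : δ ≠ 0) (hl4 : l % 4 = 1)
    (hl8 : l % 8 = 1 ↔ ¬ Even (padicValRat 2 (n : ℚ)))
    (hx : ¬ Even (padicValRat 2 (n : ℚ)) → ¬ Even (padicValRat 2 (δ : ℚ))) :
    Sp 2 δ l ↔ (Sp 2 5 n ↔ Sp 2 δ 5) := by
  refine abs_two (Sp_two hδ hl4) ((Sp_comm 2 5 n).trans (Sp_two hn (by norm_num)))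
    (Sp_two hδ (by norm_num)) (by norm_num) hl8 hx

theorem key_five {n δ l : ℤ} {N F c c' : ℚ} (hN : N ≠ 0) (hF : F ≠ 0) (hc : c ≠ 0) (hc' : c' ≠ 0)
    (hδ : δ ≠ 0) (hnl : ¬ ((5 : ℕ) : ℤ) ∣ l) (hleg : legendreSym 5 l = 1)
    (h5 : padicValRat 5 N < 2 * padicValRat 5 F)
    (hnN : (n : ℚ) = N * c ^ 2) (hδd : (δ : ℚ) = (F ^ 2 + N) * c' ^ 2) :
    Sp 5 δ l ↔ (Sp 5 5 n ↔ Sp 5 δ 5) := by
  have e1 : Sp 5 δ l := (Sp_odd 5 (by norm_num) hδ hnl).2 (Or.inr hleg)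
  obtain ⟨r, hr, hr2⟩ := sq_five hN hF h5
  have e2 : (n : ℚ_[5]) = (N : ℚ_[5]) * (c : ℚ_[5]) ^ 2 := by
    have h := congrArg (fun t : ℚ => (t : ℚ_[5])) hnN
    push_cast at h
    exact h
  have e3 : (δ : ℚ_[5]) = (N : ℚ_[5]) * (r * (c' : ℚ_[5])) ^ 2 := by
    have e4 : (δ : ℚ_[5]) = ((F ^ 2 + N : ℚ) : ℚ_[5]) * (c' : ℚ_[5]) ^ 2 := by
      have h := congrArg (fun t : ℚ => (t : ℚ_[5])) hδd
      rw [Rat.cast_intCast, Rat.cast_mul, Rat.cast_pow c'] at h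
      exact h
    rw [e4, hr2, mul_pow, mul_assoc]
  have hc0 : (c : ℚ_[5]) ≠ 0 := by
    rw [Ne, Rat.cast_eq_zero]; exact hc
  have hc0' : (c' : ℚ_[5]) ≠ 0 := by
    rw [Ne, Rat.cast_eq_zero]; exact hc'
  have e5 : Sp 5 n 5 ↔ Splits (N : ℚ_[5]) ((5 : ℤ) : ℚ_[5]) := Sp_sq 5 5 hc0 e2
  have e6 : Sp 5 δ 5 ↔ Splits (N : ℚ_[5]) ((5 : ℤ) : ℚ_[5]) :=
    Sp_sq 5 5 (mul_ne_zero hr hc0') e3
  rw [Sp_comm 5 5 n, e5, e6]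
  exact ⟨fun _ => Iff.rfl, fun _ => e1⟩

theorem abs_odd {Sdl S5n Sd5 En Ed L1 F1 In Ee : Prop} (h1 : Sdl ↔ (Ed ∨ L1)) (h2 : S5n ↔ (En ∨ F1))
    (h3 : Sd5 ↔ (Ed ∨ F1)) (hF : F1 ↔ ¬ In) (hx : In → ¬ En → ¬ Ed)
    (hee : Ee ↔ ¬ (In ∧ En)) (hL : ¬ Ed → (L1 ↔ Ee)) :
    Sdl ↔ (S5n ↔ Sd5) := by
  by_cases i : In <;> by_cases j : En <;> by_cases k : Ed <;> simp_all

theorem key_odd (p : ℕ) [Fact p.Prime] (hp2 : p ≠ 2) (hp5 : p ≠ 5) {n δ l : ℤ} (hn : n ≠ 0)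
    (hδ : δ ≠ 0) (hpl : ¬ (p : ℤ) ∣ l) (Ee : Prop)
    (hee : Ee ↔ ¬ ((p % 5 = 2 ∨ p % 5 = 3) ∧ Even (padicValRat p (n : ℚ))))
    (hx : (p % 5 = 2 ∨ p % 5 = 3) → ¬ Even (padicValRat p (n : ℚ)) → ¬ Even (padicValRat p (δ : ℚ)))
    (hL : ¬ Even (padicValRat p (δ : ℚ)) → (legendreSym p l = 1 ↔ Ee)) :
    Sp p δ l ↔ (Sp p 5 n ↔ Sp p δ 5) := by
  have hnd5 : ¬ (p : ℤ) ∣ 5 := by
    have := not_dvd_of_ne (Fact.out : p.Prime) (by norm_num : Nat.Prime 5) hp5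
    exact this
  have hF : legendreSym p 5 = 1 ↔ ¬ (p % 5 = 2 ∨ p % 5 = 3) := by
    rw [← leg_five p hp2 hp5]
    rcases Pool.Agent.W215.HB.leg_cases (p := p) hnd5 with h | h
    · rw [h]; norm_num
    · rw [h]; norm_num
  exact abs_odd (Sp_odd p hp2 hδ hpl) ((Sp_comm p 5 n).trans (Sp_odd p hp2 hn hnd5))
    (Sp_odd p hp2 hδ hnd5) hF hx hee hL

end Pool.Agent.TH909.J1414
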