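import Pool.Agent.TH909.PrimesX

/-!
# Many primes `q` with `q - 1` free of large prime factors, from primes in progressions
-/

set_option autoImplicit false

open Finset Filter

namespace Pool.Agent.TH909

/-- many primes up to `g ^ 8` -/
theorem many_primes (M : ℝ) : ∃ g0 : ℕ, ∀ g : ℕ, g0 ≤ g →
    M * (g : ℝ) ^ 7 + (g : ℝ) ^ 4 + 1 < (Nat.primeCounting (g ^ 8) : ℝ) := by
  have h1 : ∀ᶠ x : ℝ in atTop, Real.log x ≤ (1 / (100 * (|M| + 3))) * x := by
    have := Real.isLittleO_log_id_atTop.bound (show (0 : ℝ) < 1 / (100 * (|M| + 3)) by positivity)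
    filter_upwards [this, eventually_ge_atTop 1] with x hx hx1
    rw [id, Real.norm_of_nonneg (Real.log_nonneg hx1), Real.norm_of_nonneg (by linarith)] at hx
    exact hx
  obtain ⟨x0, hx0⟩ := eventually_atTop.1 h1
  refine ⟨max ⌈x0⌉₊ 3, fun g hg => ?_⟩
  have hg1 : ⌈x0⌉₊ ≤ g := (le_max_left _ _).trans hg
  have hg3 : 3 ≤ g := (le_max_right _ _).trans hg
  have hgx : x0 ≤ g := (Nat.le_ceil x0).trans (by exact_mod_cast hg1)
  have hg3' : (3 : ℝ) ≤ g := by exact_mod_cast hg3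
  have hlog := hx0 g hgx
  have hlog0 : 0 < Real.log g := Real.log_pos (by linarith)
  have hpi := Chebyshev.pi_ge (g ^ 8)
  have e1 : ((g ^ 8 : ℕ) : ℝ) = (g : ℝ) ^ 8 := by push_cast; ring
  rw [e1, Real.log_pow] at hpi
  refine lt_of_lt_of_le ?_ hpi
  rw [lt_div_iff₀ (by positivity)]
  -- the logarithm of `g ^ 8 + 1`
  have hg8 : (0 : ℝ) < (g : ℝ) ^ 8 := by positivity
  have h2 : Real.log ((g : ℝ) ^ 8 + 1) ≤ 9 * Real.log g := by
    have : (g : ℝ) ^ 8 + 1 ≤ (g : ℝ) ^ 9 := by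
      have h3 : (1 : ℝ) ≤ (g : ℝ) ^ 8 := one_le_pow₀ (by linarith)
      calc (g : ℝ) ^ 8 + 1 ≤ (g : ℝ) ^ 8 * 3 := by linarith
        _ ≤ (g : ℝ) ^ 8 * g := by gcongr
        _ = (g : ℝ) ^ 9 := by ring
    calc Real.log ((g : ℝ) ^ 8 + 1) ≤ Real.log ((g : ℝ) ^ 9) := Real.log_le_log (by positivity) this
      _ = 9 * Real.log g := by rw [Real.log_pow]; norm_num
  have h4 : Real.log g * (100 * (|M| + 3)) ≤ g := by
    have : (1 / (100 * (|M| + 3))) * (g : ℝ) * (100 * (|M| + 3)) = g := by field_simp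
    calc Real.log g * (100 * (|M| + 3)) ≤ (1 / (100 * (|M| + 3))) * (g : ℝ) * (100 * (|M| + 3)) :=
          mul_le_mul_of_nonneg_right hlog (by positivity)
      _ = g := this
  have hlog2 : (0.6931471803 : ℝ) < Real.log 2 := Real.log_two_gt_d9
  have hM : M ≤ |M| := le_abs_self M
  have h47 : (g : ℝ) ^ 4 ≤ (g : ℝ) ^ 7 := pow_le_pow_right₀ (by linarith) (by norm_num)
  have h17 : (1 : ℝ) ≤ (g : ℝ) ^ 7 := one_le_pow₀ (by linarith)
  have h7 : (0 : ℝ) < (g : ℝ) ^ 7 := by positivity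
  have h5 : (M * (g : ℝ) ^ 7 + (g : ℝ) ^ 4 + 1) * ((8 : ℕ) * Real.log g) ≤
      (|M| + 2) * (g : ℝ) ^ 7 * (8 * Real.log g) := by
    push_cast
    apply mul_le_mul_of_nonneg_right _ (by positivity)
    nlinarith
  have h6 : (|M| + 2) * (g : ℝ) ^ 7 * (8 * Real.log g) ≤ (8 / 100) * (g : ℝ) ^ 8 := by
    have h8 : (|M| + 2) * Real.log g ≤ (g : ℝ) / 100 := by
      nlinarith [hlog0]
    calc (|M| + 2) * (g : ℝ) ^ 7 * (8 * Real.log g) = 8 * (g : ℝ) ^ 7 * ((|M| + 2) * Real.log g) := by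
          ring
      _ ≤ 8 * (g : ℝ) ^ 7 * ((g : ℝ) / 100) := by gcongr
      _ = _ := by ring
  have h9 : 9 * Real.log g ≤ (9 / 100) * (g : ℝ) ^ 8 := by
    have h10 : Real.log g ≤ (g : ℝ) / 100 := by
      have : 0 ≤ |M| := abs_nonneg M
      nlinarith [hlog0]
    have h11 : (g : ℝ) ≤ (g : ℝ) ^ 8 := le_self_pow₀ (by linarith) (by norm_num)
    linarith
  nlinarith

/-- the number of prime divisors larger than `g ^ 4` of an integer below `g ^ (128 K)` -/
theorem few_large (g K m : ℕ) (hg : 2 ≤ g) (hm : 0 < m) (hmg : m < g ^ (128 * K)) (R : Finset ℕ)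
    (hR : ∀ r ∈ R, r.Prime ∧ g ^ 4 < r ∧ r ∣ m) : R.card ≤ 32 * K := by
  have h1 : ∏ r ∈ R, r ∣ m := by
    apply Finset.prod_primes_dvd
    · intro r hr
      exact (hR r hr).1.prime
    · intro r hr
      exact (hR r hr).2.2
  have h2 : (g ^ 4) ^ R.card ≤ ∏ r ∈ R, r := by
    apply Finset.pow_card_le_prod
    intro r hr
    exact (hR r hr).2.1.le
  have h3 : (g ^ 4) ^ R.card < g ^ (128 * K) := (h2.trans (Nat.le_of_dvd hm h1)).trans_lt hmg
  rw [← pow_mul] at h3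
  have h4 := (Nat.pow_lt_pow_iff_right (by omega : 1 < g)).1 h3
  omega

/-- **Step A.** Many primes `q` in `(g ^ i, g ^ (i + 1)]` with all prime factors of `q - 1` at most
`g ^ (i - 3)`. -/
theorem stepA (K z0 : ℕ) (c : ℝ) (hK : 1 ≤ K) (hc : 0 < c)
    (H : ∀ z : ℕ, z0 ≤ z → ∃ f : ℕ, f ≠ 1 ∧ 0 < f ∧ ∀ q b : ℕ, 1 ≤ q → q ^ 16 ≤ z → b.Coprime q →
      ¬ f ∣ q → c / (q.totient : ℝ) ≤ SP K z q b) :
    ∃ g0 : ℕ, ∀ g : ℕ, g0 ≤ g → ∃ i : ℕ, 128 ≤ i ∧ i < 128 * K ∧ ∃ Q : Finset ℕ,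
      Q.card = g ^ (i - 1) ∧ ∀ q ∈ Q, q.Prime ∧ g ^ i < q ∧ q ≤ g ^ (i + 1) ∧
        ∀ l : ℕ, l.Prime → l ∣ q - 1 → l ≤ g ^ (i - 3) := by
  obtain ⟨g1, hg1⟩ := many_primes (4096 * (K : ℝ) ^ 2 / c)
  refine ⟨max (max g1 z0) 3, fun g hg => ?_⟩
  have hgg1 : g1 ≤ g := (le_max_left _ _).trans ((le_max_left _ _).trans hg)
  have hgz : z0 ≤ g := (le_max_right _ _).trans ((le_max_left _ _).trans hg)
  have hg3 : 3 ≤ g := (le_max_right _ _).trans hg
  have hg0 : 0 < g := by omega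
  have hK0 : (0 : ℝ) < K := by exact_mod_cast hK
  have hgR : (3 : ℝ) ≤ g := by exact_mod_cast hg3
  have hz : z0 ≤ g ^ 128 := hgz.trans (Nat.le_self_pow (by norm_num) g)
  obtain ⟨f, hf1, hf0, hf⟩ := H (g ^ 128) hz
  -- the primes `r`
  set R : Finset ℕ := ((Ioc (g ^ 4) (g ^ 8)).filter Nat.Prime).erase f with hR
  have hRmem : ∀ r ∈ R, r.Prime ∧ g ^ 4 < r ∧ r ≤ g ^ 8 ∧ r ≠ f := by
    intro r hr
    rw [hR, mem_erase, mem_filter, mem_Ioc] at hr
    exact ⟨hr.2.2, hr.2.1.1, hr.2.1.2, hr.1⟩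
  have hRcard : 4096 * (K : ℝ) ^ 2 / c * (g : ℝ) ^ 7 < R.card := by
    have h1 : (Nat.primesLE (g ^ 8)).card ≤ (g ^ 4) + R.card + 1 := by
      have hsub : Nat.primesLE (g ^ 8) ⊆ (Icc 1 (g ^ 4)) ∪ (insert f R) := by
        intro p hp
        have hp1 : p.Prime := Nat.prime_of_mem_primesLE hp
        have hp2 : p ≤ g ^ 8 := (Nat.mem_primesLE.1 hp).1
        rw [mem_union, mem_Icc, mem_insert]
        by_cases h : p ≤ g ^ 4
        · exact Or.inl ⟨hp1.one_le, h⟩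
        · right
          by_cases hpf : p = f
          · exact Or.inl hpf
          · right
            rw [hR, mem_erase, mem_filter, mem_Ioc]
            exact ⟨hpf, ⟨not_le.1 h, hp2⟩, hp1⟩
      refine (Finset.card_le_card hsub).trans ?_
      refine (Finset.card_union_le _ _).trans ?_
      have := Finset.card_insert_le f R
      rw [Nat.card_Icc]
      omega
    have h2 := hg1 g hgg1
    rw [← Nat.primesLE_card_eq_primeCounting] at h2
    have h3 : ((Nat.primesLE (g ^ 8)).card : ℝ) ≤ (g : ℝ) ^ 4 + R.card + 1 := by exact_mod_cast h1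
    linarith
  -- the sum over `r`
  have hsum : (R.card : ℝ) * (c / (g : ℝ) ^ 8) ≤ ∑ r ∈ R, SP K (g ^ 128) r 1 := by
    rw [← nsmul_eq_mul, ← Finset.sum_const]
    apply Finset.sum_le_sum
    intro r hr
    obtain ⟨hr1, hr2, hr3, hr4⟩ := hRmem r hr
    have h1 : r ^ 16 ≤ g ^ 128 := by
      calc r ^ 16 ≤ (g ^ 8) ^ 16 := Nat.pow_le_pow_left hr3 16
        _ = g ^ 128 := by rw [← pow_mul]
    have h2 : ¬ f ∣ r := by
      intro h
      rcases (Nat.dvd_prime hr1).1 h with h | h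
      · exact hf1 h
      · exact hr4 h.symm
    refine le_trans ?_ (hf r 1 hr1.one_le h1 (Nat.coprime_one_left r) h2)
    have h3 : (0 : ℝ) < r.totient := by exact_mod_cast Nat.totient_pos.2 hr1.pos
    apply div_le_div_of_nonneg_left hc.le h3
    have h4 : r.totient ≤ g ^ 8 := (Nat.totient_le r).trans hr3
    exact_mod_cast h4
  -- the primes `q`
  set Q0 : Finset ℕ := (Ioc (g ^ 128) ((g ^ 128) ^ K)).filter
    (fun q => q.Prime ∧ ∃ r ∈ R, q ≡ 1 [MOD r]) with hQ0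
  have hswap : ∑ r ∈ R, SP K (g ^ 128) r 1 ≤ (32 * K : ℝ) * ∑ q ∈ Q0, (1 : ℝ) / q := by
    have h1 : ∑ r ∈ R, SP K (g ^ 128) r 1 = ∑ r ∈ R, ∑ q ∈ Q0,
        if q ≡ 1 [MOD r] then (1 : ℝ) / q else 0 := by
      apply Finset.sum_congr rfl
      intro r hr
      unfold SP
      rw [← Finset.sum_filter]
      apply Finset.sum_congr _ (fun _ _ => rfl)
      ext q
      rw [mem_filter, mem_filter, hQ0, mem_filter]
      constructor
      · rintro ⟨h1, h2, h3⟩
        exact ⟨⟨h1, h2, r, hr, h3⟩, h3⟩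
      · rintro ⟨⟨h1, h2, _⟩, h3⟩
        exact ⟨h1, h2, h3⟩
    rw [h1, Finset.sum_comm, Finset.mul_sum]
    apply Finset.sum_le_sum
    intro q hq
    rw [hQ0, mem_filter, mem_Ioc] at hq
    obtain ⟨⟨hq1, hq2⟩, hqp, _⟩ := hq
    rw [← Finset.sum_filter, Finset.sum_const, nsmul_eq_mul]
    apply mul_le_mul_of_nonneg_right _ (by positivity)
    have h2 : (R.filter (fun r => q ≡ 1 [MOD r])).card ≤ 32 * K := by
      apply few_large g K (q - 1) (by omega) (by have := hqp.two_le; omega)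
      · have h3 : q ≤ g ^ (128 * K) := by rw [pow_mul]; exact hq2
        have := hqp.two_le
        omega
      · intro r hr
        rw [mem_filter] at hr
        obtain ⟨hr1, hr2, _, _⟩ := hRmem r hr.1
        refine ⟨hr1, hr2, ?_⟩
        exact (Nat.modEq_iff_dvd' hqp.one_le).1 hr.2.symm
    exact_mod_cast h2
  -- pigeonhole
  have hbig : ∃ i : ℕ, 128 ≤ i ∧ i < 128 * K ∧
      g ^ (i - 1) ≤ (Q0.filter (fun q => g ^ i < q ∧ q ≤ g ^ (i + 1))).card := by
    by_contra hcon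
    push Not at hcon
    have h1 : ∑ q ∈ Q0, (1 : ℝ) / q ≤ ∑ i ∈ Ico 128 (128 * K),
        ∑ q ∈ Q0.filter (fun q => g ^ i < q ∧ q ≤ g ^ (i + 1)), (1 : ℝ) / q := by
      have h2 : ∀ q ∈ Q0, (1 : ℝ) / q ≤ ∑ i ∈ Ico 128 (128 * K),
          if g ^ i < q ∧ q ≤ g ^ (i + 1) then (1 : ℝ) / q else 0 := by
        intro q hq
        rw [hQ0, mem_filter, mem_Ioc] at hq
        obtain ⟨⟨hq1, hq2⟩, hqp, _⟩ := hq
        -- the index
        have hex : ∃ j : ℕ, q ≤ g ^ (j + 1) := ⟨128 * K, by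
          refine hq2.trans ?_
          rw [← pow_mul]
          exact Nat.pow_le_pow_right hg0 (by omega)⟩
        classical
        set j := Nat.find hex with hj
        have hj1 : q ≤ g ^ (j + 1) := Nat.find_spec hex
        have hj128 : 128 ≤ j := by
          by_contra hlt
          push Not at hlt
          have : g ^ (j + 1) ≤ g ^ 128 := Nat.pow_le_pow_right hg0 (by omega)
          omega
        have hj2 : g ^ j < q := by
          by_contra hle
          push Not at hle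
          have h5 : j - 1 < j := by omega
          exact Nat.find_min hex h5 (by
            have : j - 1 + 1 = j := by omega
            rw [this]
            exact hle)
        have hjK : j < 128 * K := by
          by_contra hge
          push Not at hge
          have : g ^ (128 * K) ≤ g ^ j := Nat.pow_le_pow_right hg0 hge
          rw [pow_mul] at this
          omega
        calc (1 : ℝ) / q = if g ^ j < q ∧ q ≤ g ^ (j + 1) then (1 : ℝ) / q else 0 := by
              rw [if_pos ⟨hj2, hj1⟩]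
          _ ≤ _ := Finset.single_le_sum (f := fun i => if g ^ i < q ∧ q ≤ g ^ (i + 1)
              then (1 : ℝ) / q else 0) (fun i _ => by split_ifs <;> positivity)
              (mem_Ico.2 ⟨hj128, hjK⟩)
      refine (Finset.sum_le_sum h2).trans (le_of_eq ?_)
      rw [Finset.sum_comm]
      apply Finset.sum_congr rfl
      intro i _
      exact (Finset.sum_filter (s := Q0) (fun q => g ^ i < q ∧ q ≤ g ^ (i + 1)) _).symm
    have h3 : ∀ i ∈ Ico 128 (128 * K),
        ∑ q ∈ Q0.filter (fun q => g ^ i < q ∧ q ≤ g ^ (i + 1)), (1 : ℝ) / q ≤ 1 / g := by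
      intro i hi
      rw [mem_Ico] at hi
      have h4 := hcon i hi.1 hi.2
      have h5 : ∑ q ∈ Q0.filter (fun q => g ^ i < q ∧ q ≤ g ^ (i + 1)), (1 : ℝ) / q ≤
          ∑ q ∈ Q0.filter (fun q => g ^ i < q ∧ q ≤ g ^ (i + 1)), (1 : ℝ) / (g : ℝ) ^ i := by
        apply Finset.sum_le_sum
        intro q hq
        rw [mem_filter] at hq
        apply one_div_le_one_div_of_le (by positivity)
        exact_mod_cast hq.2.1.le
      refine h5.trans ?_
      rw [Finset.sum_const, nsmul_eq_mul]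
      have h6 : (((Q0.filter (fun q => g ^ i < q ∧ q ≤ g ^ (i + 1))).card : ℕ) : ℝ) ≤
          (g : ℝ) ^ (i - 1) := by exact_mod_cast h4.le
      have h7 : (g : ℝ) ^ i = (g : ℝ) ^ (i - 1) * g := by
        rw [← pow_succ]; congr 1; omega
      calc _ ≤ (g : ℝ) ^ (i - 1) * (1 / (g : ℝ) ^ i) :=
            mul_le_mul_of_nonneg_right h6 (by positivity)
        _ = 1 / g := by rw [h7]; field_simp
    have h8 : ∑ q ∈ Q0, (1 : ℝ) / q ≤ (128 * K : ℝ) * (1 / g) := by
      refine h1.trans ((Finset.sum_le_sum h3).trans ?_)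
      rw [Finset.sum_const, nsmul_eq_mul, Nat.card_Ico]
      apply mul_le_mul_of_nonneg_right _ (by positivity)
      have : (128 * K - 128 : ℕ) ≤ 128 * K := by omega
      exact_mod_cast this
    have h9 : (R.card : ℝ) * (c / (g : ℝ) ^ 8) ≤ (32 * K : ℝ) * ((128 * K : ℝ) * (1 / g)) :=
      hsum.trans (hswap.trans (mul_le_mul_of_nonneg_left h8 (by positivity)))
    have h10 : (32 * K : ℝ) * ((128 * K : ℝ) * (1 / g)) =
        (4096 * (K : ℝ) ^ 2 / c * (g : ℝ) ^ 7) * (c / (g : ℝ) ^ 8) := by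
      field_simp
      ring
    rw [h10] at h9
    have h11 := le_of_mul_le_mul_right h9 (by positivity)
    linarith
  obtain ⟨i, hi1, hi2, hi3⟩ := hbig
  obtain ⟨Q, hQsub, hQcard⟩ := Finset.exists_subset_card_eq hi3
  refine ⟨i, hi1, hi2, Q, hQcard, ?_⟩
  intro q hq
  have h1 := hQsub hq
  rw [mem_filter, hQ0, mem_filter, mem_Ioc] at h1
  obtain ⟨⟨⟨_, _⟩, hqp, r, hr, hqr⟩, hq1, hq2⟩ := h1
  refine ⟨hqp, hq1, hq2, ?_⟩
  intro l hl hlq
  obtain ⟨hr1, hr2, hr3, _⟩ := hRmem r hr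
  have hrd : r ∣ q - 1 := (Nat.modEq_iff_dvd' hqp.one_le).1 hqr.symm
  obtain ⟨s, hs⟩ := hrd
  have h8 : g ^ 8 ≤ g ^ (i - 3) := Nat.pow_le_pow_right hg0 (by omega)
  rw [hs] at hlq
  rcases hl.dvd_mul.1 hlq with h | h
  · have := (Nat.prime_dvd_prime_iff_eq hl hr1).1 h
    omega
  · have hq1' := hqp.two_le
    have hs0 : 0 < s := by
      rcases Nat.eq_zero_or_pos s with h0 | h0
      · rw [h0, mul_zero] at hs; omega
      · exact h0
    have hls : l ≤ s := Nat.le_of_dvd hs0 h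
    refine hls.trans ?_
    by_contra hcon
    push Not at hcon
    have h9 : g ^ (i + 1) = g ^ 4 * g ^ (i - 3) := by
      rw [← pow_add]; congr 1; omega
    have h10 : g ^ 4 * g ^ (i - 3) ≤ r * s := Nat.mul_le_mul hr2.le hcon.le
    omega

end Pool.Agent.TH909
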